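import Mathlib
import Pool.Graph.R_seed8.H738R2.NoCurve

set_option autoImplicit false

/-! Chords of a strictly convex curve: the cotangent `U γ s t` of the angle at `γ s` between the
tangent and the chord towards `γ t`. -/

namespace Pool.Agent.KS6_1.Oval

open Complex Set Filter Topology
open Pool.Agent.H738R2.Cyl

variable {γ : ℝ → ℂ} {L : ℝ}

lemma diff0 (h : StrictlyConvexCurve γ L) : Differentiable ℝ γ :=
  h.smooth.differentiable (by simp)

lemma smooth1 (h : StrictlyConvexCurve γ L) : ContDiff ℝ (⊤ : ℕ∞) (deriv γ) :=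
  (contDiff_infty_iff_deriv.mp h.smooth).2

lemma cont0 (h : StrictlyConvexCurve γ L) : Continuous γ := h.smooth.continuous

lemma cont1 (h : StrictlyConvexCurve γ L) : Continuous (deriv γ) := (smooth1 h).continuous

lemma hasDeriv0 (h : StrictlyConvexCurve γ L) (t : ℝ) : HasDerivAt γ (deriv γ t) t :=
  (diff0 h t).hasDerivAt

lemma periodic1 (h : StrictlyConvexCurve γ L) : Function.Periodic (deriv γ) L := by
  intro x
  have h1 : deriv (fun y => γ (y + L)) x = deriv γ (x + L) := deriv_comp_add_const _ _ _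
  rw [← h1]
  congr 1
  funext y
  exact h.periodic y

/-- `conj γ'(s) (γ t - γ s)` -/
noncomputable def ww (γ : ℝ → ℂ) (s t : ℝ) : ℂ := (starRingEnd ℂ) (deriv γ s) * (γ t - γ s)

/-- cotangent of the angle at `γ s` of the chord from `γ s` to `γ t` -/
noncomputable def U (γ : ℝ → ℂ) (s t : ℝ) : ℝ := (ww γ s t).re / (ww γ s t).im

lemma ww_add_right (h : StrictlyConvexCurve γ L) (s t : ℝ) : ww γ s (t + L) = ww γ s t := by
  rw [ww, ww, h.periodic t]

lemma ww_add_left (h : StrictlyConvexCurve γ L) (s t : ℝ) : ww γ (s + L) t = ww γ s t := by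
  rw [ww, ww, h.periodic s, periodic1 h s]

lemma U_add_right (h : StrictlyConvexCurve γ L) (s t : ℝ) : U γ s (t + L) = U γ s t := by
  rw [U, U, ww_add_right h]

lemma U_add_left (h : StrictlyConvexCurve γ L) (s t : ℝ) : U γ (s + L) t = U γ s t := by
  rw [U, U, ww_add_left h]

lemma gamma_ne (h : StrictlyConvexCurve γ L) {s t : ℝ} (h1 : s < t) (h2 : t < s + L) :
    γ t ≠ γ s := by
  intro he
  have h3 := h.coe_eq he
  rw [← sub_eq_zero, ← AddCircle.coe_sub, AddCircle.coe_eq_zero_iff] at h3
  obtain ⟨n, hn⟩ := h3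
  have hL := h.length_pos
  rw [zsmul_eq_mul] at hn
  have h4 : (0:ℝ) < n * L := by linarith
  have h5 : (n:ℝ) * L < 1 * L := by linarith
  have h6 : (0:ℝ) < n := by
    by_contra hcon
    push Not at hcon
    have := mul_nonpos_of_nonpos_of_nonneg hcon hL.le
    linarith
  have h7 : (n:ℝ) < 1 := lt_of_mul_lt_mul_right h5 hL.le
  have h8 : (0:ℤ) < n := by exact_mod_cast h6
  have h9 : n < (1:ℤ) := by exact_mod_cast h7
  omega

lemma im_pos_of_ne (h : StrictlyConvexCurve γ L) {s t : ℝ} (hne : γ t ≠ γ s) :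
    0 < (ww γ s t).im := h.strictly_convex s t hne

lemma im_pos (h : StrictlyConvexCurve γ L) {s t : ℝ} (h1 : s < t) (h2 : t < s + L) :
    0 < (ww γ s t).im := im_pos_of_ne h (gamma_ne h h1 h2)

lemma im_pos' (h : StrictlyConvexCurve γ L) {s t : ℝ} (h1 : s < t) (h2 : t < s + L) :
    0 < (ww γ t s).im := im_pos_of_ne h (gamma_ne h h1 h2).symm

lemma ww_continuous (h : StrictlyConvexCurve γ L) :
    Continuous (fun p : ℝ × ℝ => ww γ p.1 p.2) := by
  have h0 := cont0 h
  have h1 := cont1 h
  unfold ww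
  have h2 : Continuous (starRingEnd ℂ) := Complex.continuous_conj
  exact (h2.comp (h1.comp continuous_fst)).mul ((h0.comp continuous_snd).sub (h0.comp continuous_fst))

lemma U_continuousAt (h : StrictlyConvexCurve γ L) {s t : ℝ} (hne : γ t ≠ γ s) :
    ContinuousAt (fun p : ℝ × ℝ => U γ p.1 p.2) (s, t) := by
  unfold U
  have hc := ww_continuous h
  refine ContinuousAt.div ?_ ?_ ?_
  · exact (Complex.continuous_re.comp hc).continuousAt
  · exact (Complex.continuous_im.comp hc).continuousAt
  · exact (im_pos_of_ne h hne).ne'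

lemma U_hasDerivAt (h : StrictlyConvexCurve γ L) {s t : ℝ} (hne : γ t ≠ γ s) :
    HasDerivAt (fun t => U γ s t) (-((ww γ t s).im / (ww γ s t).im ^ 2)) t := by
  have hw : HasDerivAt (fun t => ww γ s t) ((starRingEnd ℂ) (deriv γ s) * deriv γ t) t := by
    unfold ww
    exact ((hasDeriv0 h t).sub_const _).const_mul _
  have hre : HasDerivAt (fun t => (ww γ s t).re) (((starRingEnd ℂ) (deriv γ s) * deriv γ t).re) t := by
    exact Complex.reCLM.hasFDerivAt.comp_hasDerivAt t hw
  have him : HasDerivAt (fun t => (ww γ s t).im) (((starRingEnd ℂ) (deriv γ s) * deriv γ t).im) t := by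
    exact Complex.imCLM.hasFDerivAt.comp_hasDerivAt t hw
  have hpos := im_pos_of_ne h hne
  have hd : HasDerivAt (fun t => (ww γ s t).re / (ww γ s t).im) _ t := hre.div him hpos.ne'
  unfold U
  refine hd.congr_deriv ?_
  rw [← neg_div]
  congr 1
  -- the numerator
  have hu := h.unit_speed s
  have hu2 : (deriv γ s).re * (deriv γ s).re + (deriv γ s).im * (deriv γ s).im = 1 := by
    have := Complex.normSq_eq_norm_sq (deriv γ s)
    rw [hu, Complex.normSq_apply] at this
    linarith
  simp only [ww, Complex.mul_re, Complex.mul_im, Complex.conj_re, Complex.conj_im, Complex.sub_re,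
    Complex.sub_im]
  linear_combination (-((γ t).re * (deriv γ t).im - (γ s).re * (deriv γ t).im
    - (γ t).im * (deriv γ t).re + (γ s).im * (deriv γ t).re)) * hu2

lemma U_strictAntiOn (h : StrictlyConvexCurve γ L) (s : ℝ) :
    StrictAntiOn (fun t => U γ s t) (Ioo s (s + L)) := by
  apply strictAntiOn_of_deriv_neg (convex_Ioo _ _)
  · intro t ht
    exact (U_hasDerivAt h (gamma_ne h ht.1 ht.2)).continuousAt.continuousWithinAt
  · intro t ht
    rw [interior_Ioo] at ht
    rw [(U_hasDerivAt h (gamma_ne h ht.1 ht.2)).deriv]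
    have h1 := im_pos h ht.1 ht.2
    have h2 := im_pos' h ht.1 ht.2
    have : 0 < (ww γ t s).im / (ww γ s t).im ^ 2 := by positivity
    linarith

/-- a bound for the curvature -/
lemma exists_bound (h : StrictlyConvexCurve γ L) :
    ∃ K : ℝ, 0 < K ∧ ∀ s x : ℝ, ‖ww γ s (s + x) - x‖ ≤ K * x ^ 2 := by
  have hc : Continuous (deriv (deriv γ)) := ((contDiff_infty_iff_deriv.mp (smooth1 h)).2).continuous
  have hper : Function.Periodic (deriv (deriv γ)) L := by
    intro x
    have h1 : deriv (fun y => deriv γ (y + L)) x = deriv (deriv γ) (x + L) :=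
      deriv_comp_add_const _ _ _
    rw [← h1]
    congr 1
    funext y
    exact periodic1 h y
  obtain ⟨K0, hK0⟩ := (isCompact_Icc (a := (0:ℝ)) (b := L)).exists_bound_of_continuousOn
    hc.continuousOn
  have hK : ∀ x, ‖deriv (deriv γ) x‖ ≤ |K0| + 1 := by
    intro x
    obtain ⟨y, hy, hxy⟩ := hper.exists_mem_Ico₀ h.length_pos x
    rw [hxy]
    have := hK0 y ⟨hy.1, hy.2.le⟩
    have := le_abs_self K0
    linarith
  refine ⟨|K0| + 1, by positivity, ?_⟩
  intro s x
  have hd1 : ∀ y, HasDerivAt (deriv γ) (deriv (deriv γ) y) y := fun y =>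
    ((smooth1 h).differentiable (by simp) y).hasDerivAt
  have b1 : ∀ y, ‖deriv γ y - deriv γ s‖ ≤ (|K0| + 1) * |y - s| := by
    intro y
    have := Convex.norm_image_sub_le_of_norm_hasDerivWithin_le (f := deriv γ)
      (f' := deriv (deriv γ)) (C := |K0| + 1) (s := univ) (x := s) (y := y)
      (fun z _ => (hd1 z).hasDerivWithinAt) (fun z _ => hK z) convex_univ (mem_univ _) (mem_univ _)
    rwa [Real.norm_eq_abs] at this
  have b2 := Convex.norm_image_sub_le_of_norm_hasDerivWithin_le
      (f := fun y : ℝ => γ y - y * deriv γ s)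
      (f' := fun y => deriv γ y - deriv γ s) (C := (|K0| + 1) * |x|) (s := uIcc s (s + x))
      (x := s) (y := s + x)
      (fun z _ => by
        have h1 := (hasDeriv0 h z).sub (((hasDerivAt_id z).ofReal_comp).mul_const (deriv γ s))
        simp only [Complex.ofReal_one, one_mul, id] at h1
        exact h1.hasDerivWithinAt)
      (fun z hz => by
        refine (b1 z).trans ?_
        apply mul_le_mul_of_nonneg_left _ (by positivity)
        have := abs_sub_left_of_mem_uIcc hz
        simpa using this)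
      (convex_uIcc _ _) left_mem_uIcc right_mem_uIcc
  have e1 : ww γ s (s + x) - x = (starRingEnd ℂ) (deriv γ s) *
      ((γ (s + x) - (s + x : ℝ) * deriv γ s) - (γ s - s * deriv γ s)) := by
    have hu : (starRingEnd ℂ) (deriv γ s) * deriv γ s = 1 := by
      rw [mul_comm, Complex.mul_conj, Complex.normSq_eq_norm_sq, h.unit_speed s]; simp
    rw [ww]
    push_cast
    linear_combination (x:ℂ) * hu
  rw [e1, norm_mul, RCLike.norm_conj, h.unit_speed s, one_mul]
  refine b2.trans (le_of_eq ?_)
  rw [Real.norm_eq_abs]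
  have : s + x - s = x := by ring
  rw [this, mul_assoc, abs_mul_abs_self]
  ring

end Pool.Agent.KS6_1.Oval
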