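import Mathlib
import Pool.Agent.KS6_1.Oval.Chords

set_option autoImplicit false

/-! The billiard map in the coordinates `(s, cot α)`. -/

namespace Pool.Agent.KS6_1.Oval

open Complex Set Filter Topology
open Pool.Agent.H738R2.Cyl

variable {γ : ℝ → ℂ} {L : ℝ}

/-- a bound for the quadratic error of the tangent line -/
def Bd (γ : ℝ → ℂ) (K : ℝ) : Prop := 0 < K ∧ ∀ s x : ℝ, ‖ww γ s (s + x) - x‖ ≤ K * x ^ 2

lemma Bd.re_abs {K : ℝ} (hK : Bd γ K) (s x : ℝ) : |(ww γ s (s + x)).re - x| ≤ K * x ^ 2 := by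
  have := (Complex.abs_re_le_norm (ww γ s (s + x) - x)).trans (hK.2 s x)
  simpa using this

lemma Bd.im_abs {K : ℝ} (hK : Bd γ K) (s x : ℝ) : |(ww γ s (s + x)).im| ≤ K * x ^ 2 := by
  have := (Complex.abs_im_le_norm (ww γ s (s + x) - x)).trans (hK.2 s x)
  simpa using this

lemma U_ge (h : StrictlyConvexCurve γ L) {K : ℝ} (hK : Bd γ K) {s x : ℝ} (hx : 0 < x)
    (hx1 : K * x ≤ 1) (hxL : x < L) : 1 / (K * x) - 1 ≤ U γ s (s + x) := by
  have him := im_pos h (show s < s + x by linarith) (by linarith)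
  have h1 := (abs_le.mp (hK.re_abs s x)).1
  have h2 := (abs_le.mp (hK.im_abs s x)).2
  have hKx : 0 < K * x := mul_pos hK.1 hx
  have hnum : 0 ≤ x - K * x ^ 2 := by nlinarith
  unfold U
  rw [le_div_iff₀ him]
  have h3 : (1 / (K * x) - 1) * (K * x ^ 2) = x - K * x ^ 2 := by
    field_simp
    have := hK.1.ne'
    field_simp
  have h4 : 0 ≤ 1 / (K * x) - 1 := by
    rw [sub_nonneg, le_div_iff₀ hKx]; linarith
  have h5 := mul_le_mul_of_nonneg_left h2 h4
  linarith

lemma U_le (h : StrictlyConvexCurve γ L) {K : ℝ} (hK : Bd γ K) {s x : ℝ} (hx : 0 < x)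
    (hx1 : K * x ≤ 1) (hxL : x < L) : U γ s (s - x) ≤ -(1 / (K * x) - 1) := by
  have him := im_pos' h (show s - x < s by linarith) (by linarith)
  have h1 := (abs_le.mp (hK.re_abs s (-x))).2
  have h2 := (abs_le.mp (hK.im_abs s (-x))).2
  have e : s + -x = s - x := by ring
  rw [e] at h1 h2
  have hKx : 0 < K * x := mul_pos hK.1 hx
  unfold U
  rw [div_le_iff₀ him]
  have h3 : (1 / (K * x) - 1) * (K * x ^ 2) = x - K * x ^ 2 := by
    field_simp
    have := hK.1.ne'
    field_simp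
  have h4 : 0 ≤ 1 / (K * x) - 1 := by
    rw [sub_nonneg, le_div_iff₀ hKx]; linarith
  have e2 : (-x) ^ 2 = x ^ 2 := by ring
  rw [e2] at h1 h2
  have h5 := mul_le_mul_of_nonneg_left h2 h4
  linarith

/-- scale at which the chord angles are far out -/
noncomputable def x0 (K L u : ℝ) : ℝ := min (1 / (K * (|u| + 2))) (L / 3)

lemma x0_spec {K : ℝ} (hK : 0 < K) (hL : 0 < L) (u : ℝ) :
    0 < x0 K L u ∧ K * x0 K L u ≤ 1 ∧ x0 K L u < L / 2 ∧ |u| + 1 ≤ 1 / (K * x0 K L u) - 1 := by
  have hu := abs_nonneg u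
  have h1 : 0 < x0 K L u := lt_min (by positivity) (by positivity)
  have h2 : x0 K L u ≤ 1 / (K * (|u| + 2)) := min_le_left _ _
  have h3 : K * x0 K L u ≤ 1 / (|u| + 2) := by
    calc K * x0 K L u ≤ K * (1 / (K * (|u| + 2))) := mul_le_mul_of_nonneg_left h2 hK.le
      _ = 1 / (|u| + 2) := by field_simp
  have h4 : 1 / (|u| + 2) ≤ 1 := by
    rw [div_le_one (by positivity)]; linarith
  refine ⟨h1, h3.trans h4, lt_of_le_of_lt (min_le_right _ _) (by linarith), ?_⟩
  have h5 : |u| + 2 ≤ 1 / (K * x0 K L u) := by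
    rw [le_div_iff₀ (mul_pos hK h1)]
    rw [le_div_iff₀ (by positivity)] at h3
    linarith
  linarith

lemma exists_t (h : StrictlyConvexCurve γ L) (s u : ℝ) :
    ∃ t, t ∈ Ioo s (s + L) ∧ U γ s t = u := by
  obtain ⟨K, hK1, hK2⟩ := exists_bound h
  have hK : Bd γ K := ⟨hK1, hK2⟩
  have hL := h.length_pos
  obtain ⟨h1, h2, h3, h4⟩ := x0_spec hK1 hL u
  set x := x0 K L u with hx
  have a1 := U_ge h hK (s := s) h1 h2 (by linarith)
  have a2 := U_le h hK (s := s) h1 h2 (by linarith)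
  rw [← U_add_right h] at a2
  have e : s - x + L = s + L - x := by ring
  rw [e] at a2
  have hle : s + x ≤ s + L - x := by linarith
  have hcont : ContinuousOn (fun t => U γ s t) (Icc (s + x) (s + L - x)) := by
    intro t ht
    exact (U_hasDerivAt h (gamma_ne h (by linarith [ht.1]) (by linarith [ht.2])
      )).continuousAt.continuousWithinAt
  have hmem : u ∈ Icc (U γ s (s + L - x)) (U γ s (s + x)) := by
    constructor
    · linarith [neg_abs_le u]
    · linarith [le_abs_self u]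
  obtain ⟨t, ht, htu⟩ := intermediate_value_Icc' hle hcont hmem
  exact ⟨t, ⟨by linarith [ht.1], by linarith [ht.2]⟩, htu⟩

open Classical in
/-- the end point of the chord leaving `γ s` at the angle with cotangent `u` -/
noncomputable def tt (γ : ℝ → ℂ) (L s u : ℝ) : ℝ :=
  if h : ∃ t, t ∈ Ioo s (s + L) ∧ U γ s t = u then h.choose else 0

lemma tt_spec (h : StrictlyConvexCurve γ L) (s u : ℝ) :
    tt γ L s u ∈ Ioo s (s + L) ∧ U γ s (tt γ L s u) = u := by
  have he := exists_t h s u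
  rw [tt, dif_pos he]
  exact he.choose_spec

lemma tt_unique (h : StrictlyConvexCurve γ L) {s t u : ℝ} (ht : t ∈ Ioo s (s + L))
    (hu : U γ s t = u) : tt γ L s u = t := by
  obtain ⟨h1, h2⟩ := tt_spec h s u
  exact (U_strictAntiOn h s).injOn h1 ht (h2.trans hu.symm)

lemma tt_add (h : StrictlyConvexCurve γ L) (s u : ℝ) : tt γ L (s + L) u = tt γ L s u + L := by
  obtain ⟨h1, h2⟩ := tt_spec h s u
  apply tt_unique h
  · constructor <;> linarith [h1.1, h1.2]
  · rw [U_add_left h, U_add_right h, h2]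

/-- the cotangent of the angle of arrival -/
noncomputable def nu (γ : ℝ → ℂ) (L s u : ℝ) : ℝ := -U γ (tt γ L s u) s

lemma nu_add (h : StrictlyConvexCurve γ L) (s u : ℝ) : nu γ L (s + L) u = nu γ L s u := by
  rw [nu, nu, tt_add h, U_add_left h, U_add_right h]

lemma nu_add_zsmul (h : StrictlyConvexCurve γ L) (s u : ℝ) (n : ℤ) :
    nu γ L (s + n * L) u = nu γ L s u := by
  have hp : Function.Periodic (fun s => nu γ L s u) L := fun s => nu_add h s u
  exact hp.int_mul n s

lemma tt_continuous (h : StrictlyConvexCurve γ L) :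
    Continuous (fun p : ℝ × ℝ => tt γ L p.1 p.2) := by
  rw [continuous_iff_continuousAt]
  rintro ⟨s, u⟩
  obtain ⟨h1, h2⟩ := tt_spec h s u
  set t := tt γ L s u with ht
  rw [ContinuousAt, tendsto_order]
  have key : ∀ a, a ∈ Ioo s (s + L) → ∀ᶠ p : ℝ × ℝ in 𝓝 (s, u), a ∈ Ioo p.1 (p.1 + L) := by
    intro a ha
    have o1 : IsOpen {p : ℝ × ℝ | p.1 < a ∧ a < p.1 + L} :=
      (isOpen_lt continuous_fst continuous_const).inter
        (isOpen_lt continuous_const (continuous_fst.add continuous_const))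
    exact o1.mem_nhds ⟨ha.1, ha.2⟩
  have cont : ∀ a, a ∈ Ioo s (s + L) →
      ContinuousAt (fun p : ℝ × ℝ => U γ p.1 a - p.2) (s, u) := by
    intro a ha
    have c1 : ContinuousAt (fun p : ℝ × ℝ => U γ p.1 p.2) (s, a) :=
      U_continuousAt h (gamma_ne h ha.1 ha.2)
    have c2 : ContinuousAt (fun p : ℝ × ℝ => ((p.1, a) : ℝ × ℝ)) (s, u) := by fun_prop
    have c3 : ContinuousAt (fun p : ℝ × ℝ => U γ p.1 a) (s, u) :=
      ContinuousAt.comp (g := fun p : ℝ × ℝ => U γ p.1 p.2)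
        (f := fun p : ℝ × ℝ => ((p.1, a) : ℝ × ℝ)) (x := (s, u)) c1 c2
    exact c3.sub continuous_snd.continuousAt
  constructor
  · intro a ha
    -- take a point between max a s and t
    change a < t at ha
    set b := (max a s + t) / 2 with hb
    have hmax : max a s < t := max_lt ha h1.1
    have hb1 : b < t := by linarith
    have hb2 : max a s < b := by linarith
    have hbmem : b ∈ Ioo s (s + L) := ⟨lt_of_le_of_lt (le_max_right _ _) hb2, hb1.trans h1.2⟩
    have hUb : u < U γ s b := by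
      rw [← h2]
      exact U_strictAntiOn h s hbmem h1 hb1
    have e1 : ∀ᶠ p : ℝ × ℝ in 𝓝 (s, u), 0 < U γ p.1 b - p.2 :=
      (cont b hbmem).eventually (lt_mem_nhds (by simp only; linarith))
    filter_upwards [e1, key b hbmem] with p hp1 hp2
    have h3 := tt_spec h p.1 p.2
    have h4 : b < tt γ L p.1 p.2 := by
      by_contra hcon
      push Not at hcon
      have := (U_strictAntiOn h p.1).antitoneOn h3.1 hp2 hcon
      rw [h3.2] at this
      linarith
    exact (lt_of_le_of_lt (le_max_left _ _) hb2).trans h4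
  · intro a ha
    change t < a at ha
    set b := (min a (s + L) + t) / 2 with hb
    have hmin : t < min a (s + L) := lt_min ha h1.2
    have hb1 : t < b := by linarith
    have hb2 : b < min a (s + L) := by linarith
    have hbmem : b ∈ Ioo s (s + L) := ⟨h1.1.trans hb1, lt_of_lt_of_le hb2 (min_le_right _ _)⟩
    have hUb : U γ s b < u := by
      rw [← h2]
      exact U_strictAntiOn h s h1 hbmem hb1
    have e1 : ∀ᶠ p : ℝ × ℝ in 𝓝 (s, u), U γ p.1 b - p.2 < 0 :=
      (cont b hbmem).eventually (gt_mem_nhds (by simp only; linarith))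
    filter_upwards [e1, key b hbmem] with p hp1 hp2
    have h3 := tt_spec h p.1 p.2
    have h4 : tt γ L p.1 p.2 < b := by
      by_contra hcon
      push Not at hcon
      have := (U_strictAntiOn h p.1).antitoneOn hp2 h3.1 hcon
      rw [h3.2] at this
      linarith
    exact h4.trans (lt_of_lt_of_le hb2 (min_le_left _ _))

lemma nu_continuous (h : StrictlyConvexCurve γ L) :
    Continuous (fun p : ℝ × ℝ => nu γ L p.1 p.2) := by
  rw [continuous_iff_continuousAt]
  rintro ⟨s, u⟩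
  obtain ⟨h1, h2⟩ := tt_spec h s u
  have hne := (gamma_ne h h1.1 h1.2).symm
  have c1 : ContinuousAt (fun p : ℝ × ℝ => U γ p.1 p.2) (tt γ L s u, s) := U_continuousAt h hne
  have c2 : ContinuousAt (fun p : ℝ × ℝ => ((tt γ L p.1 p.2, p.1) : ℝ × ℝ)) (s, u) :=
    ((tt_continuous h).prodMk continuous_fst).continuousAt
  exact (ContinuousAt.comp (g := fun p : ℝ × ℝ => U γ p.1 p.2)
        (f := fun p : ℝ × ℝ => ((tt γ L p.1 p.2, p.1) : ℝ × ℝ)) (x := (s, u)) c1 c2).neg

lemma unit_of (c : ℂ) (a b : ℝ) (ha : 0 < a) (hb : 0 < b) (h : ‖(a : ℂ) * c‖ = 1) :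
    (a : ℂ) * c = (b * c) / (‖(b : ℂ) * c‖ : ℝ) := by
  rw [norm_mul, Complex.norm_real, Real.norm_eq_abs, abs_of_pos ha] at h
  rw [norm_mul, Complex.norm_real, Real.norm_eq_abs, abs_of_pos hb]
  have hc : ‖c‖ ≠ 0 := by
    intro h0; rw [h0, mul_zero] at h; exact zero_ne_one h
  have hc2 : (‖c‖ : ℂ) ≠ 0 := by exact_mod_cast hc
  have hb2 : (b : ℂ) ≠ 0 := by exact_mod_cast hb.ne'
  have h' : (a : ℂ) * ‖c‖ = 1 := by exact_mod_cast h
  push_cast
  field_simp
  linear_combination c * h'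

lemma chord (h : StrictlyConvexCurve γ L) (s u : ℝ) :
    Chord γ s (acot u) (tt γ L s u) (acot (nu γ L s u)) := by
  obtain ⟨h1, h2⟩ := tt_spec h s u
  set t := tt γ L s u with ht
  have hne := gamma_ne h h1.1 h1.2
  have i1 := im_pos h h1.1 h1.2
  have i2 := im_pos' h h1.1 h1.2
  have hℓ : 0 < ‖γ t - γ s‖ := norm_pos_iff.mpr (sub_ne_zero.mpr hne)
  have hus : (starRingEnd ℂ) (deriv γ s) * deriv γ s = 1 := by
    rw [mul_comm, Complex.mul_conj, Complex.normSq_eq_norm_sq, h.unit_speed s]; simp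
  have hut : (starRingEnd ℂ) (deriv γ t) * deriv γ t = 1 := by
    rw [mul_comm, Complex.mul_conj, Complex.normSq_eq_norm_sq, h.unit_speed t]; simp
  have w1 : ww γ s t = ((ww γ s t).im : ℂ) * (u + I) := by
    have hre : (ww γ s t).re = u * (ww γ s t).im := by
      rw [← h2, U]; field_simp
    apply Complex.ext
    · simp [hre]; ring
    · simp
  have w2 : -ww γ t s = ((ww γ t s).im : ℂ) * (nu γ L s u - I) := by
    have hre : (ww γ t s).re = -nu γ L s u * (ww γ t s).im := by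
      rw [nu, ← ht, U]; field_simp
    apply Complex.ext
    · simp [hre]; ring
    · simp
  have n1 : ‖ww γ s t‖ = ‖γ t - γ s‖ := by
    rw [ww, norm_mul, RCLike.norm_conj, h.unit_speed s, one_mul]
  have n2 : ‖-ww γ t s‖ = ‖γ t - γ s‖ := by
    rw [norm_neg, ww, norm_mul, RCLike.norm_conj, h.unit_speed t, one_mul, norm_sub_rev]
  have e1 : exp (acot u * I) = ww γ s t / (‖γ t - γ s‖ : ℝ) := by
    have hn : ‖(Real.sin (acot u) : ℂ) * (u + I)‖ = 1 := by
      rw [← exp_acot]; exact Complex.norm_exp_ofReal_mul_I _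
    rw [exp_acot, unit_of _ _ _ (sin_acot_pos u) i1 hn, ← w1, n1]
  have e2 : exp (-(acot (nu γ L s u) * I)) = -ww γ t s / (‖γ t - γ s‖ : ℝ) := by
    have hn : ‖(Real.sin (acot (nu γ L s u)) : ℂ) * (nu γ L s u - I)‖ = 1 := by
      rw [← exp_neg_acot]
      have : -((acot (nu γ L s u) : ℂ) * I) = ((-acot (nu γ L s u) : ℝ) : ℂ) * I := by
        push_cast; ring
      rw [this]; exact Complex.norm_exp_ofReal_mul_I _
    rw [exp_neg_acot, unit_of _ _ _ (sin_acot_pos _) i2 hn, ← w2, n2]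
  have hℓ' : ((‖γ t - γ s‖ : ℝ) : ℂ) ≠ 0 := by exact_mod_cast hℓ.ne'
  refine ⟨‖γ t - γ s‖, hℓ, ?_, ?_⟩
  · rw [e1, ww]
    field_simp
    linear_combination (-(γ t - γ s)) * hus
  · rw [e1, e2, ww, ww]
    field_simp
    linear_combination (γ t - γ s) * hus - (γ t - γ s) * hut

end Pool.Agent.KS6_1.Oval
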