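import Mathlib
import Pool.Agent.KS6_1.Oval.Map

set_option autoImplicit false

/-! The change of `cot α` along short chords. -/

namespace Pool.Agent.KS6_1.Oval

open Complex Set Filter Topology
open Pool.Agent.H738R2.Cyl

variable {γ : ℝ → ℂ} {L : ℝ}

/-! ### growth -/

lemma grow {f f' : ℝ → ℝ} {a b c : ℝ} (n : ℕ) (hd : ∀ x, HasDerivAt f (f' x) x) (h0 : f a = 0)
    (hle : ∀ x ∈ Icc a b, c * (x - a) ^ n ≤ f' x) :
    ∀ x ∈ Icc a b, c / (n + 1) * (x - a) ^ (n + 1) ≤ f x := by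
  intro x hx
  have hg : ∀ y, HasDerivAt (fun y => f y - c / (n + 1) * (y - a) ^ (n + 1))
      (f' y - c * (y - a) ^ n) y := by
    intro y
    have h1 : HasDerivAt (fun y : ℝ => (y - a) ^ (n + 1)) (((n + 1 : ℕ) : ℝ) * (y - a) ^ n * 1) y := by
      have := ((hasDerivAt_id y).sub_const a).fun_pow (n + 1)
      simpa using this
    have h2 := (hd y).sub (h1.const_mul (c / (n + 1)))
    refine h2.congr_deriv ?_
    have : ((n : ℝ) + 1) ≠ 0 := by positivity
    push_cast
    field_simp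
  have hmono : MonotoneOn (fun y => f y - c / (n + 1) * (y - a) ^ (n + 1)) (Icc a b) := by
    apply monotoneOn_of_deriv_nonneg (convex_Icc a b)
    · intro y _; exact (hg y).continuousAt.continuousWithinAt
    · intro y _; exact (hg y).differentiableAt.differentiableWithinAt
    · intro y hy
      rw [interior_Icc] at hy
      rw [(hg y).deriv]
      linarith [hle y ⟨hy.1.le, hy.2.le⟩]
  have := hmono ⟨le_rfl, hx.1.trans hx.2⟩ hx hx.1
  simp only [sub_self, h0] at this
  rw [zero_pow (Nat.succ_ne_zero n)] at this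
  linarith

/-- a chain of derivatives -/
lemma quartic_right {f0 f1 f2 f3 f4 : ℝ → ℝ} {a : ℝ} (h0 : ∀ x, HasDerivAt f0 (f1 x) x)
    (h1 : ∀ x, HasDerivAt f1 (f2 x) x) (h2 : ∀ x, HasDerivAt f2 (f3 x) x)
    (h3 : ∀ x, HasDerivAt f3 (f4 x) x) (z0 : f0 a = 0) (z1 : f1 a = 0) (z2 : f2 a = 0)
    (z3 : f3 a = 0) (hc : Continuous f4) (hp : 0 < f4 a) :
    ∃ δ > 0, ∃ c > 0, ∀ x, 0 ≤ x → x ≤ δ → c * x ^ 4 ≤ f0 (a + x) := by
  have hev : ∀ᶠ x in 𝓝 a, f4 a / 2 < f4 x := hc.continuousAt.eventually (lt_mem_nhds (by linarith))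
  obtain ⟨ε, hε, hball⟩ := Metric.eventually_nhds_iff.mp hev
  refine ⟨ε / 2, by positivity, f4 a / 48, by positivity, ?_⟩
  have k4 : ∀ x ∈ Icc a (a + ε / 2), f4 a / 2 * (x - a) ^ 0 ≤ f4 x := by
    intro x hx
    have : dist x a < ε := by
      rw [Real.dist_eq, abs_of_nonneg (by linarith [hx.1])]; linarith [hx.2]
    have := hball this
    simp only [pow_zero, mul_one]
    exact this.le
  have k3 := grow 0 h3 z3 k4
  have k2 := grow 1 h2 z2 (by simpa using k3)
  have k1 := grow 2 h1 z1 (by simpa using k2)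
  have k0 := grow 3 h0 z0 (by simpa using k1)
  intro x hx hx2
  have := k0 (a + x) ⟨by linarith, by linarith⟩
  have e : a + x - a = x := by ring
  rw [e] at this
  refine le_trans (le_of_eq ?_) this
  push_cast
  ring

lemma quartic {f0 f1 f2 f3 f4 : ℝ → ℝ} {a : ℝ} (h0 : ∀ x, HasDerivAt f0 (f1 x) x)
    (h1 : ∀ x, HasDerivAt f1 (f2 x) x) (h2 : ∀ x, HasDerivAt f2 (f3 x) x)
    (h3 : ∀ x, HasDerivAt f3 (f4 x) x) (z0 : f0 a = 0) (z1 : f1 a = 0) (z2 : f2 a = 0)
    (z3 : f3 a = 0) (hc : Continuous f4) (hp : 0 < f4 a) :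
    ∃ δ > 0, ∃ c > 0, ∀ x, |x| ≤ δ → c * x ^ 4 ≤ f0 (a + x) := by
  obtain ⟨δ, hδ, c, hc0, hr⟩ := quartic_right h0 h1 h2 h3 z0 z1 z2 z3 hc hp
  have rev : ∀ (f f' : ℝ → ℝ), (∀ x, HasDerivAt f (f' x) x) →
      ∀ x, HasDerivAt (fun y => f (2 * a - y)) (-f' (2 * a - x)) x := by
    intro f f' hf x
    have h1 : HasDerivAt (fun y : ℝ => 2 * a - y) (-1) x := by
      simpa using (hasDerivAt_id x).const_sub (2 * a)
    have := (hf (2 * a - x)).comp x h1
    exact this.congr_deriv (by ring)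
  have ea : 2 * a - a = a := by ring
  obtain ⟨δ', hδ', c', hc0', hl⟩ := quartic_right (a := a)
    (f0 := fun y => f0 (2 * a - y)) (f1 := fun y => -f1 (2 * a - y))
    (f2 := fun y => f2 (2 * a - y)) (f3 := fun y => -f3 (2 * a - y))
    (f4 := fun y => f4 (2 * a - y))
    (rev f0 f1 h0) (fun x => (rev f1 f2 h1 x).fun_neg.congr_deriv (neg_neg _))
    (rev f2 f3 h2) (fun x => (rev f3 f4 h3 x).fun_neg.congr_deriv (neg_neg _))
    (by simp only [ea, z0]) (by simp only [ea, z1, neg_zero]) (by simp only [ea, z2])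
    (by simp only [ea, z3, neg_zero]) (hc.comp (by fun_prop)) (by simp only [ea]; exact hp)
  refine ⟨min δ δ', lt_min hδ hδ', min c c', lt_min hc0 hc0', ?_⟩
  intro x hx
  have hx4 : 0 ≤ x ^ 4 := by positivity
  rcases le_total 0 x with h | h
  · rw [abs_of_nonneg h] at hx
    exact (mul_le_mul_of_nonneg_right (min_le_left c c') hx4).trans
      (hr x h (hx.trans (min_le_left _ _)))
  · rw [abs_of_nonpos h] at hx
    have h5 := hl (-x) (by linarith) (hx.trans (min_le_right _ _))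
    have e1 : 2 * a - (a + -x) = a + x := by ring
    have e2 : (-x) ^ 4 = x ^ 4 := by ring
    simp only [e1, e2] at h5
    exact (mul_le_mul_of_nonneg_right (min_le_right c c') hx4).trans h5

/-! ### the numerator -/

/-- numerator of `u₁ - u₀` -/
noncomputable def NN (γ : ℝ → ℂ) (s t : ℝ) : ℝ :=
  ((starRingEnd ℂ) (deriv γ s) * ((starRingEnd ℂ) (deriv γ t) * (γ t - γ s) ^ 2)).im

lemma diff_eq (h : StrictlyConvexCurve γ L) {s t : ℝ} (hne : γ t ≠ γ s) :
    -U γ t s - U γ s t = NN γ s t / ((ww γ s t).im * (ww γ t s).im) := by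
  have i1 := im_pos_of_ne h hne
  have i2 := im_pos_of_ne h hne.symm
  have e : NN γ s t = -(ww γ s t * ww γ t s).im := by
    rw [NN, ww, ww, ← Complex.neg_im]
    congr 1
    ring
  rw [e, Complex.mul_im, U, U]
  field_simp
  ring

/-- derivative of the curvature -/
noncomputable def kd (γ : ℝ → ℂ) (s : ℝ) : ℝ :=
  ((starRingEnd ℂ) (deriv γ s) * deriv (deriv (deriv γ)) s).im

lemma quartic_NN (h : StrictlyConvexCurve γ L) (s : ℝ) (σ : ℝ) (hσ : σ * kd γ s < 0) :
    ∃ δ > 0, ∃ c > 0, ∀ x, |x| ≤ δ → c * x ^ 4 ≤ σ * NN γ s (s + x) := by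
  have c1 := smooth1 h
  have c2 := (contDiff_infty_iff_deriv.mp c1).2
  have c3 := (contDiff_infty_iff_deriv.mp c2).2
  have c4 := (contDiff_infty_iff_deriv.mp c3).2
  have c5 := (contDiff_infty_iff_deriv.mp c4).2
  set g1 := deriv γ with hg1
  set g2 := deriv g1 with hg2
  set g3 := deriv g2 with hg3
  set g4 := deriv g3 with hg4
  set g5 := deriv g4 with hg5
  have d0 : ∀ t, HasDerivAt (fun t => γ t - γ s) (g1 t) t := fun t => (hasDeriv0 h t).sub_const _
  have d1 : ∀ t, HasDerivAt g1 (g2 t) t := fun t => (c1.differentiable (by simp) t).hasDerivAt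
  have d2 : ∀ t, HasDerivAt g2 (g3 t) t := fun t => (c2.differentiable (by simp) t).hasDerivAt
  have d3 : ∀ t, HasDerivAt g3 (g4 t) t := fun t => (c3.differentiable (by simp) t).hasDerivAt
  have d4 : ∀ t, HasDerivAt g4 (g5 t) t := fun t => (c4.differentiable (by simp) t).hasDerivAt
  have conj' : ∀ (f f' : ℝ → ℂ), (∀ t, HasDerivAt f (f' t) t) →
      ∀ t, HasDerivAt (fun t => (starRingEnd ℂ) (f t)) ((starRingEnd ℂ) (f' t)) t := by
    intro f f' hf t
    exact Complex.conjCLE.toContinuousLinearMap.hasFDerivAt.comp_hasDerivAt t (hf t)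
  have b1 := conj' _ _ d1
  have b2 := conj' _ _ d2
  have b3 := conj' _ _ d3
  have b4 := conj' _ _ d4
  have im' : ∀ (f f' : ℝ → ℂ) (t : ℝ), HasDerivAt f (f' t) t →
      HasDerivAt (fun t => σ * ((starRingEnd ℂ) (g1 s) * f t).im)
        (σ * ((starRingEnd ℂ) (g1 s) * f' t).im) t := by
    intro f f' t hf
    exact (Complex.imCLM.hasFDerivAt.comp_hasDerivAt t (hf.const_mul _)).const_mul σ
  set D : ℝ → ℂ := fun t => γ t - γ s with hD
  have hunit : ∀ t, (starRingEnd ℂ) (g1 t) * g1 t = 1 := by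
    intro t
    rw [mul_comm, Complex.mul_conj, Complex.normSq_eq_norm_sq, hg1, h.unit_speed t]; simp
  -- the functions
  set G0 : ℝ → ℂ := fun t => (starRingEnd ℂ) (g1 t) * D t ^ 2 with hG0
  set G1 : ℝ → ℂ := fun t => (starRingEnd ℂ) (g2 t) * D t ^ 2 + 2 * D t with hG1
  set G2 : ℝ → ℂ := fun t => (starRingEnd ℂ) (g3 t) * D t ^ 2
    + 2 * ((starRingEnd ℂ) (g2 t) * (D t * g1 t)) + 2 * g1 t with hG2
  set G3 : ℝ → ℂ := fun t => (starRingEnd ℂ) (g4 t) * D t ^ 2
    + 4 * ((starRingEnd ℂ) (g3 t) * (D t * g1 t))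
    + 2 * ((starRingEnd ℂ) (g2 t) * g1 t ^ 2) + 2 * ((starRingEnd ℂ) (g2 t) * (D t * g2 t))
    + 2 * g2 t with hG3
  set G4 : ℝ → ℂ := fun t => (starRingEnd ℂ) (g5 t) * D t ^ 2
    + 6 * ((starRingEnd ℂ) (g4 t) * (D t * g1 t))
    + 6 * ((starRingEnd ℂ) (g3 t) * g1 t ^ 2) + 6 * ((starRingEnd ℂ) (g3 t) * (D t * g2 t))
    + 6 * ((starRingEnd ℂ) (g2 t) * (g1 t * g2 t)) + 2 * ((starRingEnd ℂ) (g2 t) * (D t * g3 t))
    + 2 * g3 t with hG4
  have k0 : ∀ t, HasDerivAt G0 (G1 t) t := by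
    intro t
    have := (b1 t).fun_mul ((d0 t).fun_pow 2)
    refine this.congr_deriv ?_
    simp only [hG1, hD]
    push_cast
    linear_combination (2 * (γ t - γ s)) * hunit t
  have k1 : ∀ t, HasDerivAt G1 (G2 t) t := by
    intro t
    have := ((b2 t).fun_mul ((d0 t).fun_pow 2)).fun_add ((d0 t).const_mul 2)
    refine this.congr_deriv ?_
    simp only [hG2, hD]
    push_cast
    ring
  have k2 : ∀ t, HasDerivAt G2 (G3 t) t := by
    intro t
    have := (((b3 t).fun_mul ((d0 t).fun_pow 2)).fun_add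
      (((b2 t).fun_mul ((d0 t).fun_mul (d1 t))).const_mul 2)).fun_add ((d1 t).const_mul 2)
    refine this.congr_deriv ?_
    simp only [hG3, hD]
    push_cast
    ring
  have k3 : ∀ t, HasDerivAt G3 (G4 t) t := by
    intro t
    have := (((((b4 t).fun_mul ((d0 t).fun_pow 2)).fun_add
      (((b3 t).fun_mul ((d0 t).fun_mul (d1 t))).const_mul 4)).fun_add
      (((b2 t).fun_mul ((d1 t).fun_pow 2)).const_mul 2)).fun_add
      (((b2 t).fun_mul ((d0 t).fun_mul (d2 t))).const_mul 2)).fun_add ((d2 t).const_mul 2)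
    refine this.congr_deriv ?_
    simp only [hG4, hD]
    push_cast
    ring
  have hDs : D s = 0 := by simp [hD]
  have hcont : Continuous G4 := by
    have cc : Continuous (starRingEnd ℂ) := Complex.continuous_conj
    have q0 : Continuous D := (cont0 h).sub continuous_const
    have q1 := c1.continuous
    have q2 := c2.continuous
    have q3 := c3.continuous
    have q4 := c4.continuous
    have q5 := c5.continuous
    have r2 := cc.comp q2
    have r3 := cc.comp q3
    have r4 := cc.comp q4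
    have r5 := cc.comp q5
    simp only [Function.comp_def] at r2 r3 r4 r5
    simp only [hG4]
    fun_prop
  have hus := hunit s
  have hre : ∀ z : ℂ, (z + (starRingEnd ℂ) z).im = 0 := by intro z; simp
  have := quartic (a := s) (fun t => im' G0 G1 t (k0 t)) (fun t => im' G1 G2 t (k1 t))
    (fun t => im' G2 G3 t (k2 t)) (fun t => im' G3 G4 t (k3 t))
    (by simp [hG0, hDs]) (by simp [hG1, hDs])
    (by
      have : (starRingEnd ℂ) (g1 s) * G2 s = 2 := by
        simp only [hG2, hDs]; linear_combination 2 * hus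
      rw [this]; simp)
    (by
      have : (starRingEnd ℂ) (g1 s) * G3 s = 2 * ((starRingEnd ℂ) (g1 s) * g2 s
          + (starRingEnd ℂ) ((starRingEnd ℂ) (g1 s) * g2 s)) := by
        simp only [hG3, hDs, map_mul, Complex.conj_conj]
        linear_combination (2 * (starRingEnd ℂ) (g2 s) * g1 s) * hus
      rw [this, Complex.mul_im, hre]; simp)
    (by
      have q := hcont
      have : Continuous (fun x => ((starRingEnd ℂ) (g1 s) * G4 x).im) :=
        Complex.continuous_im.comp (continuous_const.mul q)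
      exact continuous_const.mul this)
    (by
      have e1 : (starRingEnd ℂ) (g1 s) * G4 s = 6 * (starRingEnd ℂ) ((starRingEnd ℂ) (g1 s) * g3 s)
          + 6 * (g2 s * (starRingEnd ℂ) (g2 s)) + 2 * ((starRingEnd ℂ) (g1 s) * g3 s) := by
        simp only [hG4, hDs, map_mul, Complex.conj_conj]
        linear_combination (6 * (starRingEnd ℂ) (g3 s) * g1 s
          + 6 * g2 s * (starRingEnd ℂ) (g2 s)) * hus
      have e2 : ((starRingEnd ℂ) (g1 s) * G4 s).im = -4 * kd γ s := by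
        rw [e1, Complex.mul_conj (g2 s)]
        simp only [Complex.add_im, Complex.mul_im, Complex.conj_im, kd, ← hg1, ← hg2, ← hg3]
        simp
        ring
      rw [e2]
      linarith)
  exact this

end Pool.Agent.KS6_1.Oval
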