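import Mathlib
import Pool.Agent.KS6_1.Oval.Local

set_option autoImplicit false

/-! Far out, the billiard map of a curve which is not a circle changes `cot α` by a definite amount
at some points, in both directions. -/

namespace Pool.Agent.KS6_1.Oval

open Complex Set Filter Topology
open Pool.Agent.H738R2.Cyl

variable {γ : ℝ → ℂ} {L : ℝ}

lemma far_aux (h : StrictlyConvexCurve γ L) {K : ℝ} (hK : Bd γ K) {s σ c δ x : ℝ} (hc : 0 < c)
    (hq : ∀ x, |x| ≤ δ → c * x ^ 4 ≤ σ * NN γ s (s + x)) (hx : x ≠ 0) (hxδ : |x| ≤ δ)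
    (hne : γ (s + x) ≠ γ s) :
    c / K ^ 2 ≤ σ * (-U γ (s + x) s - U γ s (s + x)) := by
  have i1 := im_pos_of_ne h hne
  have i2 := im_pos_of_ne h hne.symm
  have b1 := (abs_le.mp (hK.im_abs s x)).2
  have b2 := (abs_le.mp (hK.im_abs (s + x) (-x))).2
  have e : s + x + -x = s := by ring
  rw [e] at b2
  have e2 : (-x) ^ 2 = x ^ 2 := by ring
  rw [e2] at b2
  rw [diff_eq h hne, ← mul_div_assoc]
  have hKp := hK.1
  have hx2 : 0 < x ^ 2 := by positivity
  have hden : (ww γ s (s + x)).im * (ww γ (s + x) s).im ≤ (K * x ^ 2) * (K * x ^ 2) :=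
    mul_le_mul b1 b2 i2.le (by positivity)
  rw [le_div_iff₀ (mul_pos i1 i2)]
  have h1 : c / K ^ 2 * ((ww γ s (s + x)).im * (ww γ (s + x) s).im)
      ≤ c / K ^ 2 * ((K * x ^ 2) * (K * x ^ 2)) :=
    mul_le_mul_of_nonneg_left hden (by positivity)
  have h2 : c / K ^ 2 * ((K * x ^ 2) * (K * x ^ 2)) = c * x ^ 4 := by
    field_simp
  rw [h2] at h1
  exact h1.trans (hq x hxδ)

lemma far (h : StrictlyConvexCurve γ L) (s σ : ℝ) (hσ : σ * kd γ s < 0) :
    ∃ c > 0, ∃ M : ℝ, ∀ u, M ≤ |u| → c ≤ σ * (nu γ L s u - u) := by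
  obtain ⟨K, hK1, hK2⟩ := exists_bound h
  have hK : Bd γ K := ⟨hK1, hK2⟩
  obtain ⟨δ, hδ, c, hc, hq⟩ := quartic_NN h s σ hσ
  have hL := h.length_pos
  set δ' := min δ (L / 2) with hδ'
  have hδ'0 : 0 < δ' := lt_min hδ (by linarith)
  have hδ'L : δ' < L := lt_of_le_of_lt (min_le_right _ _) (by linarith)
  refine ⟨c / K ^ 2, by positivity, |U γ s (s + δ')| + |U γ s (s + L - δ')| + 1, ?_⟩
  intro u hu
  obtain ⟨h1, h2⟩ := tt_spec h s u
  set t := tt γ L s u with ht
  have hnu : nu γ L s u - u = -U γ t s - U γ s t := by rw [nu, ← ht, h2]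
  rcases le_total 0 u with hu0 | hu0
  · rw [abs_of_nonneg hu0] at hu
    have hlt : U γ s (s + δ') < u := by
      linarith [le_abs_self (U γ s (s + δ')), abs_nonneg (U γ s (s + L - δ'))]
    have htlt : t < s + δ' := by
      by_contra hcon
      push Not at hcon
      have := (U_strictAntiOn h s).antitoneOn (show s + δ' ∈ Ioo s (s + L) from
        ⟨by linarith, by linarith⟩) h1 hcon
      linarith
    have hx0 : 0 < t - s := by linarith [h1.1]
    have hxδ : |t - s| ≤ δ := by
      rw [abs_of_pos hx0]; linarith [min_le_left δ (L / 2)]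
    have e : s + (t - s) = t := by ring
    have := far_aux h hK hc hq hx0.ne' hxδ (by rw [e]; exact gamma_ne h h1.1 h1.2)
    rw [e] at this
    rwa [hnu]
  · rw [abs_of_nonpos hu0] at hu
    have hlt : u < U γ s (s + L - δ') := by
      linarith [neg_abs_le (U γ s (s + L - δ')), abs_nonneg (U γ s (s + δ'))]
    have htgt : s + L - δ' < t := by
      by_contra hcon
      push Not at hcon
      have := (U_strictAntiOn h s).antitoneOn h1 (show s + L - δ' ∈ Ioo s (s + L) from
        ⟨by linarith, by linarith⟩) hcon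
      linarith
    have hx0 : t - (s + L) < 0 := by linarith [h1.2]
    have hxδ : |t - (s + L)| ≤ δ := by
      rw [abs_of_neg hx0]; linarith [min_le_left δ (L / 2)]
    have e : s + (t - (s + L)) + L = t := by ring
    have e1 : γ (s + (t - (s + L))) = γ t := by
      rw [← h.periodic (s + (t - (s + L))), e]
    have e2 : U γ s (s + (t - (s + L))) = U γ s t := by
      rw [← U_add_right h s (s + (t - (s + L))), e]
    have e3 : U γ (s + (t - (s + L))) s = U γ t s := by
      rw [← U_add_left h (s + (t - (s + L))) s, e]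
    have := far_aux h hK hc hq hx0.ne hxδ (by rw [e1]; exact gamma_ne h h1.1 h1.2)
    rw [e2, e3] at this
    rwa [hnu]

lemma periodic2 (h : StrictlyConvexCurve γ L) : Function.Periodic (deriv (deriv γ)) L := by
  intro x
  have h1 : deriv (fun y => deriv γ (y + L)) x = deriv (deriv γ) (x + L) :=
    deriv_comp_add_const _ _ _
  rw [← h1]
  congr 1
  funext y
  exact periodic1 h y

/-- a periodic function with a derivative of one sign is constant -/
lemma const_of_monotone_periodic {f : ℝ → ℝ} {L : ℝ} (hL : 0 < L) (hm : Monotone f)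
    (hp : Function.Periodic f L) (x y : ℝ) : f x = f y := by
  have key : ∀ x y, f y ≤ f x := by
    intro x y
    obtain ⟨n, hn⟩ := exists_nat_gt ((y - x) / L)
    rw [div_lt_iff₀ hL] at hn
    have h1 : f y ≤ f (x + n * L) := hm (by linarith)
    have h2 : f (x + n * L) = f x := hp.nat_mul n x
    linarith
  exact le_antisymm (key y x) (key x y)

/-- the curve is a circle -/
def IsCircle (γ : ℝ → ℂ) : Prop := ∃ (c : ℂ) (r : ℝ), ∀ s, ‖γ s - c‖ = r

lemma circle_of_const (h : StrictlyConvexCurve γ L) (κ : ℝ)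
    (hκ : ∀ s, ((starRingEnd ℂ) (deriv γ s) * deriv (deriv γ) s).im = κ) : IsCircle γ := by
  have c1 := smooth1 h
  have d1 : ∀ t, HasDerivAt (deriv γ) (deriv (deriv γ) t) t :=
    fun t => (c1.differentiable (by simp) t).hasDerivAt
  have hunit : ∀ t, (starRingEnd ℂ) (deriv γ t) * deriv γ t = 1 := by
    intro t
    rw [mul_comm, Complex.mul_conj, Complex.normSq_eq_norm_sq, h.unit_speed t]; simp
  have b1 : ∀ t, HasDerivAt (fun t => (starRingEnd ℂ) (deriv γ t))
      ((starRingEnd ℂ) (deriv (deriv γ) t)) t := fun t =>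
    Complex.conjCLE.toContinuousLinearMap.hasFDerivAt.comp_hasDerivAt t (d1 t)
  have hre : ∀ t, ((starRingEnd ℂ) (deriv γ t) * deriv (deriv γ) t).re = 0 := by
    intro t
    have h1 := (b1 t).fun_mul (d1 t)
    have h2 : HasDerivAt (fun t => (starRingEnd ℂ) (deriv γ t) * deriv γ t) 0 t := by
      have : (fun t => (starRingEnd ℂ) (deriv γ t) * deriv γ t) = fun _ => 1 := funext hunit
      rw [this]; exact hasDerivAt_const _ _
    have h3 := h1.unique h2
    have h4 := congrArg Complex.re h3
    simp only [Complex.add_re, Complex.mul_re, Complex.conj_re, Complex.conj_im,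
      Complex.zero_re] at h4 ⊢
    linarith
  have hg2 : ∀ t, deriv (deriv γ) t = (κ * I) * deriv γ t := by
    intro t
    have h1 : (starRingEnd ℂ) (deriv γ t) * deriv (deriv γ) t = κ * I := by
      apply Complex.ext
      · rw [hre t]; simp
      · rw [hκ t]; simp
    linear_combination (deriv γ t) * h1 - (deriv (deriv γ) t) * hunit t
  have hκ0 : κ ≠ 0 := by
    intro h0
    have hz : ∀ t, HasDerivAt (deriv γ) 0 t := by
      intro t
      have := d1 t
      rw [hg2 t, h0] at this
      simpa using this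
    have hconst : ∀ x, deriv γ x = deriv γ 0 := fun x =>
      is_const_of_deriv_eq_zero (fun t => (hz t).differentiableAt) (fun t => (hz t).deriv) x 0
    have hlin : ∀ t, HasDerivAt (fun t : ℝ => γ t - t * deriv γ 0) 0 t := by
      intro t
      have h1 := (hasDeriv0 h t).fun_sub (((hasDerivAt_id t).ofReal_comp).mul_const (deriv γ 0))
      simp only [Complex.ofReal_one, one_mul, id] at h1
      rw [hconst t, sub_self] at h1
      exact h1
    have h2 := is_const_of_deriv_eq_zero (f := fun t : ℝ => γ t - t * deriv γ 0)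
      (fun t => (hlin t).differentiableAt) (fun t => (hlin t).deriv) L 0
    have h3 : γ L = γ 0 := by have := h.periodic 0; rwa [zero_add] at this
    simp only [h3, Complex.ofReal_zero, zero_mul, sub_zero] at h2
    have h4 : (L : ℂ) * deriv γ 0 = 0 := by linear_combination -h2
    rcases mul_eq_zero.mp h4 with h5 | h5
    · have : L = 0 := by exact_mod_cast h5
      exact h.length_pos.ne' this
    · have := h.unit_speed 0
      rw [h5, norm_zero] at this
      exact zero_ne_one this
  have hκc : (κ : ℂ) ≠ 0 := by exact_mod_cast hκ0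
  have hcen : ∀ t, HasDerivAt (fun t : ℝ => γ t + (I / κ) * deriv γ t) 0 t := by
    intro t
    have h1 := (hasDeriv0 h t).fun_add ((d1 t).const_mul (I / κ))
    refine h1.congr_deriv ?_
    rw [hg2 t]
    field_simp
    rw [Complex.I_sq]
    ring
  have h2 : ∀ x, γ x + (I / κ) * deriv γ x = γ 0 + (I / κ) * deriv γ 0 := fun x =>
    is_const_of_deriv_eq_zero (f := fun t : ℝ => γ t + (I / κ) * deriv γ t)
      (fun t => (hcen t).differentiableAt) (fun t => (hcen t).deriv) x 0
  refine ⟨γ 0 + (I / κ) * deriv γ 0, ‖(I / κ : ℂ)‖, ?_⟩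
  intro s
  rw [← h2 s]
  have : γ s - (γ s + I / κ * deriv γ s) = -(I / κ * deriv γ s) := by ring
  rw [this, norm_neg, norm_mul, h.unit_speed s, mul_one]

lemma exists_signs (h : StrictlyConvexCurve γ L) (hnc : ¬ IsCircle γ) :
    (∃ s, kd γ s < 0) ∧ (∃ s, 0 < kd γ s) := by
  have c1 := smooth1 h
  have c2 := (contDiff_infty_iff_deriv.mp c1).2
  have d1 : ∀ t, HasDerivAt (deriv γ) (deriv (deriv γ) t) t :=
    fun t => (c1.differentiable (by simp) t).hasDerivAt
  have d2 : ∀ t, HasDerivAt (deriv (deriv γ)) (deriv (deriv (deriv γ)) t) t :=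
    fun t => (c2.differentiable (by simp) t).hasDerivAt
  have b1 : ∀ t, HasDerivAt (fun t => (starRingEnd ℂ) (deriv γ t))
      ((starRingEnd ℂ) (deriv (deriv γ) t)) t := fun t =>
    Complex.conjCLE.toContinuousLinearMap.hasFDerivAt.comp_hasDerivAt t (d1 t)
  set k : ℝ → ℝ := fun s => ((starRingEnd ℂ) (deriv γ s) * deriv (deriv γ) s).im with hk
  have hkd : ∀ s, HasDerivAt k (kd γ s) s := by
    intro s
    have h1 := (b1 s).fun_mul (d2 s)
    have h2 := Complex.imCLM.hasFDerivAt.comp_hasDerivAt s h1
    refine HasDerivAt.congr_deriv (f' := _) h2 ?_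
    simp only [kd, Complex.imCLM_apply, Complex.add_im, Complex.mul_im, Complex.conj_re,
      Complex.conj_im]
    ring
  have hper : Function.Periodic k L := by
    intro x
    simp only [hk]
    rw [periodic1 h x, periodic2 h x]
  constructor
  · by_contra hcon
    push Not at hcon
    apply hnc
    have hm : Monotone k := monotone_of_deriv_nonneg (fun s => (hkd s).differentiableAt)
      (fun s => by rw [(hkd s).deriv]; exact hcon s)
    exact circle_of_const h (k 0) (fun s => const_of_monotone_periodic h.length_pos hm hper s 0)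
  · by_contra hcon
    push Not at hcon
    apply hnc
    have hm : Monotone (fun s => -k s) := by
      apply monotone_of_deriv_nonneg (fun s => (hkd s).fun_neg.differentiableAt)
      intro s
      rw [(hkd s).fun_neg.deriv]
      linarith [hcon s]
    have hp : Function.Periodic (fun s => -k s) L := fun x => by simp only [hper x]
    exact circle_of_const h (k 0) (fun s => by
      have := const_of_monotone_periodic h.length_pos hm hp s 0
      simp only [neg_inj] at this
      exact this)

end Pool.Agent.KS6_1.Oval
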