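import Mathlib
import Pool.Agent.KS6_1.Oval.Far

set_option autoImplicit false

/-! The tangent angle of a strictly convex curve. -/

namespace Pool.Agent.KS6_1.Oval

open Complex Set Filter Topology
open Pool.Agent.H738R2.Cyl

variable {γ : ℝ → ℂ} {L : ℝ}

/-- curvature -/
noncomputable def kk (γ : ℝ → ℂ) (s : ℝ) : ℝ :=
  ((starRingEnd ℂ) (deriv γ s) * deriv (deriv γ) s).im

/-- tangent angle -/
noncomputable def th (γ : ℝ → ℂ) (s : ℝ) : ℝ := Complex.arg (deriv γ 0) + ∫ x in (0:ℝ)..s, kk γ x

lemma kk_continuous (h : StrictlyConvexCurve γ L) : Continuous (kk γ) := by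
  have c1 := smooth1 h
  have c2 := (contDiff_infty_iff_deriv.mp c1).2
  unfold kk
  exact Complex.continuous_im.comp ((Complex.continuous_conj.comp c1.continuous).mul c2.continuous)

lemma th_hasDerivAt (h : StrictlyConvexCurve γ L) (s : ℝ) : HasDerivAt (th γ) (kk γ s) s := by
  have hc := kk_continuous h
  have h1 : HasDerivAt (fun s => ∫ x in (0:ℝ)..s, kk γ x) (kk γ s) s :=
    intervalIntegral.integral_hasDerivAt_right (hc.intervalIntegrable _ _)
      hc.stronglyMeasurable.stronglyMeasurableAtFilter hc.continuousAt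
  exact h1.const_add _

lemma th_continuous (h : StrictlyConvexCurve γ L) : Continuous (th γ) :=
  continuous_iff_continuousAt.mpr fun s => (th_hasDerivAt h s).continuousAt

lemma conj_mul_self (h : StrictlyConvexCurve γ L) (t : ℝ) :
    (starRingEnd ℂ) (deriv γ t) * deriv γ t = 1 := by
  rw [mul_comm, Complex.mul_conj, Complex.normSq_eq_norm_sq, h.unit_speed t]; simp

lemma deriv2_eq (h : StrictlyConvexCurve γ L) (t : ℝ) :
    deriv (deriv γ) t = (kk γ t * I) * deriv γ t := by
  have c1 := smooth1 h
  have d1 : ∀ t, HasDerivAt (deriv γ) (deriv (deriv γ) t) t :=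
    fun t => (c1.differentiable (by simp) t).hasDerivAt
  have b1 : ∀ t, HasDerivAt (fun t => (starRingEnd ℂ) (deriv γ t))
      ((starRingEnd ℂ) (deriv (deriv γ) t)) t := fun t =>
    Complex.conjCLE.toContinuousLinearMap.hasFDerivAt.comp_hasDerivAt t (d1 t)
  have hre : ((starRingEnd ℂ) (deriv γ t) * deriv (deriv γ) t).re = 0 := by
    have h1 := (b1 t).fun_mul (d1 t)
    have h2 : HasDerivAt (fun t => (starRingEnd ℂ) (deriv γ t) * deriv γ t) 0 t := by
      have : (fun t => (starRingEnd ℂ) (deriv γ t) * deriv γ t) = fun _ => 1 :=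
        funext (conj_mul_self h)
      rw [this]; exact hasDerivAt_const _ _
    have h3 := h1.unique h2
    have h4 := congrArg Complex.re h3
    simp only [Complex.add_re, Complex.mul_re, Complex.conj_re, Complex.conj_im,
      Complex.zero_re] at h4 ⊢
    linarith
  have h1 : (starRingEnd ℂ) (deriv γ t) * deriv (deriv γ) t = kk γ t * I := by
    apply Complex.ext
    · rw [hre]; simp
    · simp [kk]
  linear_combination (deriv γ t) * h1 - (deriv (deriv γ) t) * conj_mul_self h t

lemma exp_th (h : StrictlyConvexCurve γ L) (s : ℝ) : exp (th γ s * I) = deriv γ s := by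
  have c1 := smooth1 h
  have d1 : ∀ t, HasDerivAt (deriv γ) (deriv (deriv γ) t) t :=
    fun t => (c1.differentiable (by simp) t).hasDerivAt
  have e1 : ∀ t, HasDerivAt (fun t => exp (-(th γ t * I))) (exp (-(th γ t * I)) * (-(kk γ t * I))) t := by
    intro t
    have q1 : HasDerivAt (fun t => -((th γ t : ℂ) * I)) (-(kk γ t * I)) t :=
      (((th_hasDerivAt h t).ofReal_comp).mul_const I).fun_neg
    exact q1.cexp
  have hF : ∀ t, HasDerivAt (fun t => deriv γ t * exp (-(th γ t * I))) 0 t := by
    intro t
    refine ((d1 t).fun_mul (e1 t)).congr_deriv ?_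
    rw [deriv2_eq h t]
    ring
  have hconst := is_const_of_deriv_eq_zero (f := fun t => deriv γ t * exp (-(th γ t * I)))
      (fun t => (hF t).differentiableAt) (fun t => (hF t).deriv) s 0
  have h0 : deriv γ 0 * exp (-(th γ 0 * I)) = 1 := by
    have t0 : th γ 0 = Complex.arg (deriv γ 0) := by simp [th]
    rw [t0]
    have := Complex.norm_mul_exp_arg_mul_I (deriv γ 0)
    rw [h.unit_speed 0, Complex.ofReal_one, one_mul] at this
    nth_rewrite 1 [← this]
    rw [← Complex.exp_add, add_neg_cancel, Complex.exp_zero]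
  rw [h0] at hconst
  have : exp (th γ s * I) * exp (-(th γ s * I)) = 1 := by
    rw [← Complex.exp_add, add_neg_cancel, Complex.exp_zero]
  have hne : exp (-(th γ s * I)) ≠ 0 := exp_ne_zero _
  exact mul_right_cancel₀ hne (this.trans hconst.symm)

lemma dir_inj (h : StrictlyConvexCurve γ L) {s t : ℝ} (he : deriv γ s = deriv γ t) :
    γ t = γ s := by
  by_contra hne
  have h1 := im_pos_of_ne h hne
  have h2 := im_pos_of_ne h (Ne.symm hne)
  rw [ww, ← he] at h2
  rw [ww] at h1
  have : (starRingEnd ℂ) (deriv γ s) * (γ s - γ t) = -((starRingEnd ℂ) (deriv γ s) * (γ t - γ s)) := by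
    ring
  rw [this, Complex.neg_im] at h2
  linarith

lemma th_ne (h : StrictlyConvexCurve γ L) {s t : ℝ} (h1 : s < t) (h2 : t < s + L) (n : ℤ) :
    th γ t - th γ s ≠ n * (2 * Real.pi) := by
  intro he
  apply gamma_ne h h1 h2
  apply dir_inj h
  rw [← exp_th h s, ← exp_th h t]
  have : (th γ t : ℂ) * I = th γ s * I + n * (2 * Real.pi * I) := by
    have h3 : ((th γ t - th γ s : ℝ) : ℂ) = ((n * (2 * Real.pi) : ℝ) : ℂ) := by rw [he]
    push_cast at h3
    linear_combination I * h3
  rw [this, Complex.exp_add]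
  have := Complex.exp_int_mul_two_pi_mul_I n
  rw [this, mul_one]

lemma th_pos (h : StrictlyConvexCurve γ L) {s t : ℝ} (h1 : s < t) (h2 : t < s + L) :
    0 < th γ t - th γ s := by
  have hcont := th_continuous h
  by_contra hcon
  push Not at hcon
  have hne : ∀ y, s < y → y < s + L → th γ y - th γ s ≠ 0 := by
    intro y hy1 hy2
    have := th_ne h hy1 hy2 0
    simpa using this
  have hneg : ∀ y, s < y → y < s + L → th γ y - th γ s < 0 := by
    intro y hy1 hy2
    by_contra hy
    push Not at hy
    have hmem : (0:ℝ) ∈ uIcc (th γ t - th γ s) (th γ y - th γ s) := by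
      rw [mem_uIcc]; left; exact ⟨hcon, hy⟩
    obtain ⟨x, hx, hx0⟩ := intermediate_value_uIcc (a := t) (b := y)
      (f := fun x => th γ x - th γ s) (hcont.sub continuous_const).continuousOn hmem
    have hx1 : s < x ∧ x < s + L := by
      rw [mem_uIcc] at hx
      rcases hx with hx | hx
      · exact ⟨by linarith [hx.1], by linarith [hx.2]⟩
      · exact ⟨by linarith [hx.1], by linarith [hx.2]⟩
    exact hne x hx1.1 hx1.2 hx0
  -- near `s` the angle is above `-π`
  have hev : ∀ᶠ x in 𝓝 s, th γ s - Real.pi < th γ x :=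
    hcont.continuousAt.eventually (lt_mem_nhds (by linarith [Real.pi_pos]))
  obtain ⟨ε, hε, hball⟩ := Metric.eventually_nhds_iff.mp hev
  set b := min (s + ε / 2) t with hb
  have hb1 : s < b := lt_min (by linarith) h1
  have hb2 : b ≤ t := min_le_right _ _
  have hb3 : b ≤ s + ε / 2 := min_le_left _ _
  have hder : ∀ y, HasDerivAt (fun y => (ww γ s y).im) (Real.sin (th γ y - th γ s)) y := by
    intro y
    have hw : HasDerivAt (fun t => ww γ s t) ((starRingEnd ℂ) (deriv γ s) * deriv γ y) y := by
      unfold ww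
      exact ((hasDeriv0 h y).sub_const _).const_mul _
    have him := Complex.imCLM.hasFDerivAt.comp_hasDerivAt y hw
    refine HasDerivAt.congr_deriv (f' := _) him ?_
    rw [Complex.imCLM_apply, ← exp_th h s, ← exp_th h y, ← Complex.exp_conj, ← Complex.exp_add]
    have : (starRingEnd ℂ) (th γ s * I) + th γ y * I = ((th γ y - th γ s : ℝ) : ℂ) * I := by
      simp; ring
    rw [this, Complex.exp_ofReal_mul_I_im]
  have hanti : StrictAntiOn (fun y => (ww γ s y).im) (Icc s b) := by
    apply strictAntiOn_of_deriv_neg (convex_Icc _ _)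
    · intro y _; exact (hder y).continuousAt.continuousWithinAt
    · intro y hy
      rw [interior_Icc] at hy
      rw [(hder y).deriv]
      apply Real.sin_neg_of_neg_of_neg_pi_lt
      · exact hneg y hy.1 (by linarith [hy.2])
      · have : dist y s < ε := by
          rw [Real.dist_eq, abs_of_pos (by linarith [hy.1])]; linarith [hy.2]
        have := hball this
        linarith
  have h3 := hanti ⟨le_rfl, hb1.le⟩ ⟨hb1.le, le_rfl⟩ hb1
  have h4 := im_pos h hb1 (by linarith : b < s + L)
  have h5 : (ww γ s s).im = 0 := by simp [ww]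
  simp only [h5] at h3
  linarith

lemma th_lt (h : StrictlyConvexCurve γ L) {s t : ℝ} (h1 : s < t) (h2 : t < s + L) :
    th γ t - th γ s < 2 * Real.pi := by
  by_contra hcon
  push Not at hcon
  have hmem : (2 * Real.pi) ∈ Icc (th γ s - th γ s) (th γ t - th γ s) := by
    rw [sub_self]; exact ⟨by positivity, hcon⟩
  obtain ⟨x, hx, hx0⟩ := intermediate_value_Icc h1.le
      (f := fun x => th γ x - th γ s) ((th_continuous h).sub continuous_const).continuousOn hmem
  simp only at hx0
  have hxs : s < x := by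
    rcases hx.1.lt_or_eq with h3 | h3
    · exact h3
    · exfalso; rw [← h3, sub_self] at hx0
      linarith [Real.pi_pos]
  exact th_ne h hxs (by linarith [hx.2]) 1 (by rw [hx0]; simp)

lemma th_add (h : StrictlyConvexCurve γ L) (s : ℝ) : th γ (s + L) = th γ s + 2 * Real.pi := by
  have hL := h.length_pos
  have h1 := th_pos h (s := s) (t := s + L / 2) (by linarith) (by linarith)
  have h2 := th_lt h (s := s) (t := s + L / 2) (by linarith) (by linarith)
  have h3 := th_pos h (s := s + L / 2) (t := s + L) (by linarith) (by linarith)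
  have h4 := th_lt h (s := s + L / 2) (t := s + L) (by linarith) (by linarith)
  have h5 : exp (th γ (s + L) * I) = exp (th γ s * I) := by
    rw [exp_th h, exp_th h, periodic1 h s]
  rw [Complex.exp_eq_exp_iff_exists_int] at h5
  obtain ⟨n, hn⟩ := h5
  have hn' : th γ (s + L) = th γ s + n * (2 * Real.pi) := by
    have h6 : (th γ (s + L) : ℂ) = ((th γ s + n * (2 * Real.pi) : ℝ) : ℂ) := by
      have hI : (I : ℂ) ≠ 0 := Complex.I_ne_zero
      apply mul_right_cancel₀ hI
      rw [hn]; push_cast; ring
    exact_mod_cast h6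
  have hpi := Real.pi_pos
  have h7 : (0:ℝ) < n := by
    by_contra hcon
    push Not at hcon
    have := mul_nonpos_of_nonpos_of_nonneg hcon (by positivity : (0:ℝ) ≤ 2 * Real.pi)
    linarith
  have h8 : (n:ℝ) < 2 := by
    by_contra hcon
    push Not at hcon
    have := mul_le_mul_of_nonneg_right hcon (by positivity : (0:ℝ) ≤ 2 * Real.pi)
    linarith
  have h9 : (0:ℤ) < n := by exact_mod_cast h7
  have h10 : n < (2:ℤ) := by exact_mod_cast h8
  have h11 : n = 1 := by omega
  rw [hn', h11]; simp

lemma th_add_int (h : StrictlyConvexCurve γ L) (s : ℝ) (n : ℤ) :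
    th γ (s + n * L) = th γ s + n * (2 * Real.pi) := by
  have hL := h.length_pos
  have hp : Function.Periodic (fun s => th γ s - (2 * Real.pi / L) * s) L := by
    intro x
    simp only [th_add h x]
    field_simp
    ring
  have := hp.int_mul n s
  have e : 2 * Real.pi / L * (s + n * L) = 2 * Real.pi / L * s + n * (2 * Real.pi) := by
    field_simp
  rw [e] at this
  linarith

lemma th_strictMono (h : StrictlyConvexCurve γ L) : StrictMono (th γ) := by
  intro s t hst
  have hL := h.length_pos
  obtain ⟨n, hn, -⟩ := existsUnique_add_zsmul_mem_Ico hL t s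
  rw [zsmul_eq_mul] at hn
  have h1 := th_add_int h t n
  have hpi := Real.pi_pos
  have hn0 : n ≤ 0 := by
    by_contra hcon
    push Not at hcon
    have h2 : (1:ℤ) ≤ n := hcon
    have h3 : (1:ℝ) ≤ n := by exact_mod_cast h2
    have := mul_le_mul_of_nonneg_right h3 hL.le
    linarith [hn.2]
  have hn0' : (n:ℝ) ≤ 0 := by exact_mod_cast hn0
  rcases hn.1.lt_or_eq with h3 | h3
  · have := th_pos h h3 hn.2
    have h4 := mul_nonpos_of_nonpos_of_nonneg hn0' (by positivity : (0:ℝ) ≤ 2 * Real.pi)
    linarith
  · rw [← h3] at h1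
    have hn1 : n ≠ 0 := by
      rintro rfl
      simp at h3
      linarith
    have hn2 : n ≤ -1 := by omega
    have hn2' : (n:ℝ) ≤ -1 := by exact_mod_cast hn2
    have h4 := mul_le_mul_of_nonneg_right hn2' (by positivity : (0:ℝ) ≤ 2 * Real.pi)
    linarith

lemma th_surj (h : StrictlyConvexCurve γ L) : Function.Surjective (th γ) := by
  intro y
  have hpi := Real.pi_pos
  have hbelow : ∃ x, th γ x ≤ y := by
    obtain ⟨n, hn⟩ := exists_int_lt ((y - th γ 0) / (2 * Real.pi))
    rw [lt_div_iff₀ (by positivity)] at hn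
    exact ⟨0 + n * L, by rw [th_add_int h]; linarith⟩
  have habove : ∃ x, y ≤ th γ x := by
    obtain ⟨n, hn⟩ := exists_int_gt ((y - th γ 0) / (2 * Real.pi))
    rw [div_lt_iff₀ (by positivity)] at hn
    exact ⟨0 + n * L, by rw [th_add_int h]; linarith⟩
  exact mem_range_of_exists_le_of_exists_ge (th_continuous h) hbelow habove

end Pool.Agent.KS6_1.Oval
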