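import Mathlib
import Pool.Agent.KS6_1.Oval.Angle

set_option autoImplicit false

/-! The billiard map cannot move a circle `{α = const}` only up, or only down. -/

namespace Pool.Agent.KS6_1.Oval

open Complex Set Filter Topology
open Pool.Agent.H738R2.Cyl

variable {γ : ℝ → ℂ} {L : ℝ}

/-- a function whose increments are at most quadratic is nonincreasing -/
lemma antitone_of_sq {f : ℝ → ℝ} {ε C : ℝ} (hε : 0 < ε) (hC : 0 ≤ C)
    (hf : ∀ x y, x ≤ y → y ≤ x + ε → f y - f x ≤ C * (y - x) ^ 2) : Antitone f := by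
  intro x y hxy
  by_contra hcon
  push Not at hcon
  set D := y - x with hD
  have hD0 : 0 ≤ D := by linarith
  obtain ⟨n, hn⟩ := exists_nat_gt (max (D / ε) (C * D ^ 2 / (f y - f x)))
  have hn1 : D / ε < n := lt_of_le_of_lt (le_max_left _ _) hn
  have hn2 : C * D ^ 2 / (f y - f x) < n := lt_of_le_of_lt (le_max_right _ _) hn
  rw [div_lt_iff₀ hε] at hn1
  rw [div_lt_iff₀ (by linarith)] at hn2
  have hnpos : (0:ℝ) < n := by
    have h1 : 0 ≤ C * D ^ 2 := by positivity
    by_contra h2
    push Not at h2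
    have := mul_nonpos_of_nonpos_of_nonneg h2 (by linarith : 0 ≤ f y - f x)
    linarith
  have hstep : D / n ≤ ε := by
    rw [div_le_iff₀ hnpos]; linarith
  have hstep0 : 0 ≤ D / n := div_nonneg hD0 hnpos.le
  have htel : ∀ m : ℕ, f (x + m * (D / n)) - f x ≤ m * (C * (D / n) ^ 2) := by
    intro m
    induction m with
    | zero => simp
    | succ m ih =>
      have h1 := hf (x + m * (D / n)) (x + (m + 1 : ℕ) * (D / n))
        (by push_cast; linarith) (by push_cast; linarith)
      have e : x + (m + 1 : ℕ) * (D / n) - (x + m * (D / n)) = D / n := by push_cast; ring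
      rw [e] at h1
      push_cast at h1 ⊢
      linarith
  have h1 := htel n
  have e1 : x + n * (D / n) = y := by
    field_simp
    rw [hD]; ring
  rw [e1] at h1
  have e2 : (n : ℝ) * (C * (D / n) ^ 2) = C * D ^ 2 / n := by
    field_simp
  rw [e2, le_div_iff₀ hnpos] at h1
  linarith

/-- inverse of the tangent angle -/
noncomputable def iv (h : StrictlyConvexCurve γ L) : ℝ → ℝ := Function.surjInv (th_surj h)

lemma th_iv (h : StrictlyConvexCurve γ L) (y : ℝ) : th γ (iv h y) = y :=
  Function.surjInv_eq (th_surj h) y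

lemma iv_th (h : StrictlyConvexCurve γ L) (x : ℝ) : iv h (th γ x) = x :=
  (th_strictMono h).injective (th_iv h _)

lemma iv_le (h : StrictlyConvexCurve γ L) {x y : ℝ} (hxy : x ≤ y) : iv h x ≤ iv h y := by
  rw [← (th_strictMono h).le_iff_le, th_iv, th_iv]; exact hxy

lemma iv_lt (h : StrictlyConvexCurve γ L) {x y : ℝ} (hxy : x < y) : iv h x < iv h y := by
  rw [← (th_strictMono h).lt_iff_lt, th_iv, th_iv]; exact hxy

lemma iv_add (h : StrictlyConvexCurve γ L) (y : ℝ) : iv h (y + 2 * Real.pi) = iv h y + L := by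
  apply (th_strictMono h).injective
  rw [th_iv, th_add h, th_iv]

/-- the height function `Re (e^{-iφ} γ x) - x cos α` -/
noncomputable def hh (γ : ℝ → ℂ) (c φ x : ℝ) : ℝ := (exp (-(φ * I)) * γ x).re - x * c

lemma hh_hasDerivAt (h : StrictlyConvexCurve γ L) (c φ x : ℝ) :
    HasDerivAt (hh γ c φ) (Real.cos (th γ x - φ) - c) x := by
  have h1 : HasDerivAt (fun x => exp (-(φ * I)) * γ x) (exp (-(φ * I)) * deriv γ x) x :=
    (hasDeriv0 h x).const_mul _
  have h2 := Complex.reCLM.hasFDerivAt.comp_hasDerivAt x h1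
  have h3 : HasDerivAt (fun x : ℝ => x * c) c x := by
    simpa using (hasDerivAt_id x).mul_const c
  have h4 := h2.sub h3
  refine HasDerivAt.congr_deriv (f' := _) h4 ?_
  congr 1
  rw [Complex.reCLM_apply, ← exp_th h x, ← Complex.exp_add]
  have : -((φ:ℂ) * I) + th γ x * I = ((th γ x - φ : ℝ) : ℂ) * I := by push_cast; ring
  rw [this, Complex.exp_ofReal_mul_I_re]

/-- between angles `α` and `2π - α` the height function decreases -/
lemma hh_anti (h : StrictlyConvexCurve γ L) {α φ a b : ℝ} (hα : α ∈ Ioo (0:ℝ) Real.pi)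
    (hab : a ≤ b) (h1 : α ≤ th γ a - φ) (h2 : th γ b - φ ≤ 2 * Real.pi - α) :
    hh γ (Real.cos α) φ b ≤ hh γ (Real.cos α) φ a := by
  have hanti : AntitoneOn (hh γ (Real.cos α) φ) (Icc a b) := by
    apply antitoneOn_of_deriv_nonpos (convex_Icc a b)
    · intro y _; exact (hh_hasDerivAt h _ φ y).continuousAt.continuousWithinAt
    · intro y _; exact (hh_hasDerivAt h _ φ y).differentiableAt.differentiableWithinAt
    · intro y hy
      rw [interior_Icc] at hy
      rw [(hh_hasDerivAt h _ φ y).deriv]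
      have m1 := (th_strictMono h).monotone hy.1.le
      have m2 := (th_strictMono h).monotone hy.2.le
      -- cos (θ - φ) ≤ cos α
      rcases le_total (th γ y - φ) Real.pi with h3 | h3
      · have := Real.cos_le_cos_of_nonneg_of_le_pi hα.1.le h3 (by linarith)
        linarith
      · have h4 := Real.cos_le_cos_of_nonneg_of_le_pi hα.1.le
          (show 2 * Real.pi - (th γ y - φ) ≤ Real.pi by linarith) (by linarith)
        rw [Real.cos_two_pi_sub] at h4
        linarith
  exact hanti ⟨le_rfl, hab⟩ ⟨hab, le_rfl⟩ hab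

/-- between angles `-α` and `α` the height function increases -/
lemma hh_mono (h : StrictlyConvexCurve γ L) {α φ a b : ℝ} (hα : α ∈ Ioo (0:ℝ) Real.pi)
    (hab : a ≤ b) (h1 : -α ≤ th γ a - φ) (h2 : th γ b - φ ≤ α) :
    hh γ (Real.cos α) φ a ≤ hh γ (Real.cos α) φ b := by
  have hmono : MonotoneOn (hh γ (Real.cos α) φ) (Icc a b) := by
    apply monotoneOn_of_deriv_nonneg (convex_Icc a b)
    · intro y _; exact (hh_hasDerivAt h _ φ y).continuousAt.continuousWithinAt
    · intro y _; exact (hh_hasDerivAt h _ φ y).differentiableAt.differentiableWithinAt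
    · intro y hy
      rw [interior_Icc] at hy
      rw [(hh_hasDerivAt h _ φ y).deriv]
      have m1 := (th_strictMono h).monotone hy.1.le
      have m2 := (th_strictMono h).monotone hy.2.le
      have h3 : |th γ y - φ| ≤ α := abs_le.mpr ⟨by linarith, by linarith⟩
      have h4 := Real.cos_le_cos_of_nonneg_of_le_pi (abs_nonneg _) hα.2.le h3
      rw [Real.cos_abs] at h4
      linarith
  exact hmono ⟨le_rfl, hab⟩ ⟨hab, le_rfl⟩ hab

/-- `F(φ, s, t)` -/
noncomputable def FF (γ : ℝ → ℂ) (c φ s t : ℝ) : ℝ := hh γ c φ t - hh γ c φ s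

/-- `P φ` -/
noncomputable def PP (h : StrictlyConvexCurve γ L) (α φ : ℝ) : ℝ :=
  FF γ (Real.cos α) φ (iv h (φ - α)) (iv h (φ + α))

/-- signed distance of the end of the arc from the chord direction -/
noncomputable def HH (h : StrictlyConvexCurve γ L) (α φ : ℝ) : ℝ :=
  (exp (-(φ * I)) * (γ (iv h (φ + α)) - γ (iv h (φ - α)))).im

lemma FF_le_PP (h : StrictlyConvexCurve γ L) {α : ℝ} (hα : α ∈ Ioo (0:ℝ) Real.pi) {φ ψ : ℝ}
    (h1 : |φ - ψ| ≤ 2 * α) (h2 : |φ - ψ| ≤ 2 * (Real.pi - α)) :
    FF γ (Real.cos α) φ (iv h (ψ - α)) (iv h (ψ + α)) ≤ PP h α φ := by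
  obtain ⟨a1, a2⟩ := abs_le.mp h1
  obtain ⟨b1, b2⟩ := abs_le.mp h2
  have hB : hh γ (Real.cos α) φ (iv h (ψ + α)) ≤ hh γ (Real.cos α) φ (iv h (φ + α)) := by
    rcases le_total φ ψ with hle | hle
    · exact hh_anti h hα (iv_le h (by linarith)) (by rw [th_iv]; linarith)
        (by rw [th_iv]; linarith)
    · exact hh_mono h hα (iv_le h (by linarith)) (by rw [th_iv]; linarith)
        (by rw [th_iv]; linarith)
  have hA : hh γ (Real.cos α) φ (iv h (φ - α)) ≤ hh γ (Real.cos α) φ (iv h (ψ - α)) := by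
    rcases le_total φ ψ with hle | hle
    · exact hh_mono h hα (iv_le h (by linarith)) (by rw [th_iv]; linarith)
        (by rw [th_iv]; linarith)
    · -- shift by a period
      have e1 : hh γ (Real.cos α) φ (iv h (ψ - α)) =
          hh γ (Real.cos α) φ (iv h (ψ - α + 2 * Real.pi)) + L * Real.cos α := by
        rw [iv_add h, hh, hh, h.periodic]; ring
      have e2 : hh γ (Real.cos α) φ (iv h (φ - α)) =
          hh γ (Real.cos α) φ (iv h (φ - α + 2 * Real.pi)) + L * Real.cos α := by
        rw [iv_add h, hh, hh, h.periodic]; ring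
      rw [e1, e2]
      have := hh_anti h hα (a := iv h (ψ - α + 2 * Real.pi)) (b := iv h (φ - α + 2 * Real.pi))
        (φ := φ) (iv_le h (by linarith)) (by rw [th_iv]; linarith) (by rw [th_iv]; linarith)
      linarith
  rw [PP, FF, FF]
  linarith

lemma FF_diff (h : StrictlyConvexCurve γ L) (c φ ψ s t : ℝ) (hst : |t - s| ≤ L)
    (hd : |ψ - φ| ≤ 1) :
    |FF γ c ψ s t - FF γ c φ s t - (ψ - φ) * (exp (-(φ * I)) * (γ t - γ s)).im|
      ≤ L * (ψ - φ) ^ 2 := by
  set z := exp (-(φ * I)) * (γ t - γ s) with hz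
  set δ := ψ - φ with hδ
  have e1 : exp (-(ψ * I)) = exp (-(φ * I)) * exp (-(δ * I)) := by
    rw [← Complex.exp_add]; congr 1; rw [hδ]; push_cast; ring
  have e2 : FF γ c ψ s t - FF γ c φ s t - δ * z.im
      = (z * (exp (-(δ * I)) - 1 - (-(δ * I)))).re := by
    have e3 : z * (exp (-(δ * I)) - 1 - (-(δ * I)))
        = (exp (-(ψ * I)) * γ t - exp (-(ψ * I)) * γ s)
          - (exp (-(φ * I)) * γ t - exp (-(φ * I)) * γ s) + z * (δ * I) := by
      rw [e1, hz]; ring
    have e4 : (z * (δ * I)).re = -(δ * z.im) := by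
      simp [Complex.mul_re, Complex.mul_im]; ring
    rw [e3, Complex.add_re, Complex.sub_re, Complex.sub_re, Complex.sub_re, e4]
    simp only [FF, hh]
    ring
  rw [e2]
  refine (Complex.abs_re_le_norm _).trans ?_
  rw [norm_mul]
  have n1 : ‖z‖ ≤ L := by
    rw [hz, norm_mul]
    have : -((φ : ℂ) * I) = ((-φ : ℝ) : ℂ) * I := by push_cast; ring
    rw [this, Complex.norm_exp_ofReal_mul_I, one_mul]
    have := Convex.norm_image_sub_le_of_norm_hasDerivWithin_le (f := γ)
      (f' := deriv γ) (C := 1) (s := univ) (x := s) (y := t)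
      (fun z _ => (hasDeriv0 h z).hasDerivWithinAt) (fun z _ => (h.unit_speed z).le)
      convex_univ (mem_univ _) (mem_univ _)
    rw [one_mul, Real.norm_eq_abs] at this
    exact this.trans hst
  have n2 : ‖-((δ : ℂ) * I)‖ = |δ| := by
    rw [norm_neg, norm_mul, Complex.norm_I, mul_one, Complex.norm_real, Real.norm_eq_abs]
  have n3 := Complex.norm_exp_sub_one_sub_id_le (x := -((δ:ℂ) * I)) (by rw [n2]; exact hd)
  rw [n2, sq_abs] at n3
  exact mul_le_mul n1 n3 (norm_nonneg _) h.length_pos.le

lemma arc_le (h : StrictlyConvexCurve γ L) {α : ℝ} (hα : α ∈ Ioo (0:ℝ) Real.pi) (φ : ℝ) :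
    iv h (φ - α) < iv h (φ + α) ∧ iv h (φ + α) < iv h (φ - α) + L := by
  constructor
  · exact iv_lt h (by linarith [hα.1])
  · rw [← iv_add h]; exact iv_lt h (by linarith [hα.2])

lemma PP_periodic (h : StrictlyConvexCurve γ L) (α : ℝ) :
    Function.Periodic (PP h α) (2 * Real.pi) := by
  intro φ
  have e1 : φ + 2 * Real.pi - α = φ - α + 2 * Real.pi := by ring
  have e2 : φ + 2 * Real.pi + α = φ + α + 2 * Real.pi := by ring
  have e3 : exp (-(((φ + 2 * Real.pi : ℝ) : ℂ) * I)) = exp (-(φ * I)) := by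
    have : -(((φ + 2 * Real.pi : ℝ) : ℂ) * I) = -(φ * I) - 2 * Real.pi * I := by push_cast; ring
    rw [this, Complex.exp_sub, Complex.exp_two_pi_mul_I, div_one]
  rw [PP, PP, FF, FF, hh, hh, hh, hh, e1, e2, iv_add h, iv_add h, h.periodic, h.periodic, e3]
  ring

/-- scale of the local estimates -/
lemma PP_upper (h : StrictlyConvexCurve γ L) {α : ℝ} (hα : α ∈ Ioo (0:ℝ) Real.pi) :
    ∃ ε > 0, ∀ φ ψ : ℝ, |ψ - φ| ≤ ε →
      (ψ - φ) * HH h α φ - L * (ψ - φ) ^ 2 ≤ PP h α ψ - PP h α φ := by
  refine ⟨min 1 (min (2 * α) (2 * (Real.pi - α))), ?_, ?_⟩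
  · refine lt_min one_pos (lt_min ?_ ?_)
    · linarith [hα.1]
    · linarith [hα.2]
  intro φ ψ hd
  have d1 : |ψ - φ| ≤ 1 := hd.trans (min_le_left _ _)
  have d2 : |ψ - φ| ≤ 2 * α := hd.trans ((min_le_right _ _).trans (min_le_left _ _))
  have d3 : |ψ - φ| ≤ 2 * (Real.pi - α) := hd.trans ((min_le_right _ _).trans (min_le_right _ _))
  have h1 := FF_le_PP h hα d2 d3
  obtain ⟨q1, q2⟩ := arc_le h hα φ
  have h2 := FF_diff h (Real.cos α) φ ψ (iv h (φ - α)) (iv h (φ + α))
    (by rw [abs_of_pos (by linarith)]; linarith) d1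
  have h3 := (abs_le.mp h2).1
  have h4 : PP h α φ = FF γ (Real.cos α) φ (iv h (φ - α)) (iv h (φ + α)) := rfl
  rw [h4, HH]
  linarith

/-- if the function `HH` does not change sign, it vanishes -/
lemma HH_zero_of_nonpos (h : StrictlyConvexCurve γ L) {α : ℝ} (hα : α ∈ Ioo (0:ℝ) Real.pi)
    (hH : ∀ φ, HH h α φ ≤ 0) (φ : ℝ) : HH h α φ = 0 := by
  obtain ⟨ε, hε, hup⟩ := PP_upper h hα
  have hL := h.length_pos
  have hpi := Real.pi_pos
  have hanti : Antitone (PP h α) := by
    apply antitone_of_sq hε hL.le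
    intro x y hxy hy
    have h1 := hup y x (by rw [abs_sub_comm, abs_of_nonneg (by linarith)]; linarith)
    have h2 : 0 ≤ (x - y) * HH h α y := mul_nonneg_of_nonpos_of_nonpos (by linarith) (hH y)
    have e : (x - y) ^ 2 = (y - x) ^ 2 := by ring
    rw [e] at h1
    linarith
  have hconst : ∀ x y, PP h α x = PP h α y := by
    intro x y
    have hm : Monotone (fun x => -PP h α x) := fun a b hab => neg_le_neg (hanti hab)
    have hp : Function.Periodic (fun x => -PP h α x) (2 * Real.pi) := fun x => by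
      simp only [PP_periodic h α x]
    have := const_of_monotone_periodic (by positivity) hm hp x y
    simp only [neg_inj] at this
    exact this
  apply le_antisymm (hH φ)
  by_contra hcon
  push Not at hcon
  -- use a point slightly below `φ`
  set δ := min ε (-HH h α φ / (2 * L)) with hδ
  have hδ0 : 0 < δ := lt_min hε (div_pos (by linarith) (by positivity))
  have h1 := hup φ (φ - δ) (by
    have : φ - δ - φ = -δ := by ring
    rw [this, abs_neg, abs_of_pos hδ0]; exact min_le_left _ _)
  rw [hconst (φ - δ) φ, sub_self] at h1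
  have e : φ - δ - φ = -δ := by ring
  rw [e] at h1
  have h2 : δ ≤ -HH h α φ / (2 * L) := min_le_right _ _
  rw [le_div_iff₀ (by positivity)] at h2
  nlinarith

lemma HH_zero_of_nonneg (h : StrictlyConvexCurve γ L) {α : ℝ} (hα : α ∈ Ioo (0:ℝ) Real.pi)
    (hH : ∀ φ, 0 ≤ HH h α φ) (φ : ℝ) : HH h α φ = 0 := by
  obtain ⟨ε, hε, hup⟩ := PP_upper h hα
  have hL := h.length_pos
  have hpi := Real.pi_pos
  have hanti : Antitone (fun x => -PP h α x) := by
    apply antitone_of_sq hε hL.le
    intro x y hxy hy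
    have h1 := hup x y (by rw [abs_of_nonneg (by linarith)]; linarith)
    have h2 : 0 ≤ (y - x) * HH h α x := mul_nonneg (by linarith) (hH x)
    linarith
  have hconst : ∀ x y, PP h α x = PP h α y := by
    intro x y
    have hm : Monotone (PP h α) := fun a b hab => by
      have := hanti hab
      simp only at this
      linarith
    exact const_of_monotone_periodic (by positivity) hm (PP_periodic h α) x y
  apply le_antisymm _ (hH φ)
  by_contra hcon
  push Not at hcon
  set δ := min ε (HH h α φ / (2 * L)) with hδ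
  have hδ0 : 0 < δ := lt_min hε (div_pos (by linarith) (by positivity))
  have h1 := hup φ (φ + δ) (by
    have : φ + δ - φ = δ := by ring
    rw [this, abs_of_pos hδ0]; exact min_le_left _ _)
  rw [hconst (φ + δ) φ, sub_self] at h1
  have e : φ + δ - φ = δ := by ring
  rw [e] at h1
  have h2 : δ ≤ HH h α φ / (2 * L) := min_le_right _ _
  rw [le_div_iff₀ (by positivity)] at h2
  nlinarith

/-! ### relation with the billiard map -/

/-- the tangent angle at the end of the chord -/
lemma th_tt (h : StrictlyConvexCurve γ L) (s u : ℝ) :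
    th γ (tt γ L s u) = th γ s + acot u + acot (nu γ L s u) := by
  obtain ⟨ℓ, -, -, hc⟩ := chord h s u
  obtain ⟨⟨h1, h2⟩, -⟩ := tt_spec h s u
  set t := tt γ L s u with ht
  rw [← exp_th h s, ← exp_th h t, ← Complex.exp_add, ← Complex.exp_add,
    Complex.exp_eq_exp_iff_exists_int] at hc
  obtain ⟨n, hn⟩ := hc
  have hn' : th γ t = th γ s + acot u + acot (nu γ L s u) - n * (2 * Real.pi) := by
    have h6 : (th γ t : ℂ) =
        ((th γ s + acot u + acot (nu γ L s u) - n * (2 * Real.pi) : ℝ) : ℂ) := by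
      apply mul_right_cancel₀ Complex.I_ne_zero
      push_cast
      linear_combination -hn
    exact_mod_cast h6
  have p1 := th_pos h h1 h2
  have p2 := th_lt h h1 h2
  have a1 := acot_mem u
  have a2 := acot_mem (nu γ L s u)
  have hpi := Real.pi_pos
  have hn1 : (n:ℝ) < 1 := by
    by_contra hcon
    push Not at hcon
    have := mul_le_mul_of_nonneg_right hcon (by positivity : (0:ℝ) ≤ 2 * Real.pi)
    linarith [a1.2, a2.2]
  have hn2 : (-1:ℝ) < n := by
    by_contra hcon
    push Not at hcon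
    have := mul_le_mul_of_nonneg_right hcon (by positivity : (0:ℝ) ≤ 2 * Real.pi)
    linarith [a1.1, a2.1]
  have hn3 : n < (1:ℤ) := by exact_mod_cast hn1
  have hn4 : (-1:ℤ) < n := by exact_mod_cast hn2
  have hn5 : n = 0 := by omega
  rw [hn', hn5]; simp

lemma HH_eq (h : StrictlyConvexCurve γ L) (s u : ℝ) :
    HH h (acot u) (th γ s + acot u) = Real.sin (acot u)
      * (ww γ s (iv h (th γ s + 2 * acot u))).im * (u - U γ s (iv h (th γ s + 2 * acot u))) := by
  have e0 : th γ s + acot u - acot u = th γ s := by ring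
  have e1 : th γ s + acot u + acot u = th γ s + 2 * acot u := by ring
  obtain ⟨q1, q2⟩ := arc_le h (acot_mem u) (th γ s + acot u)
  rw [HH]
  rw [e0, e1, iv_th h] at *
  set b := iv h (th γ s + 2 * acot u) with hb
  have hpos := im_pos h q1 q2
  have e2 : exp (-(((th γ s + acot u : ℝ) : ℂ) * I)) * (γ b - γ s)
      = exp (-(acot u * I)) * ww γ s b := by
    have : (starRingEnd ℂ) (deriv γ s) = exp (-(th γ s * I)) := by
      rw [← exp_th h s, ← Complex.exp_conj]; congr 1; simp
    rw [ww, this, ← mul_assoc, ← Complex.exp_add]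
    congr 2
    push_cast; ring
  rw [e2, exp_neg_acot]
  have hre : (ww γ s b).re = U γ s b * (ww γ s b).im := by
    rw [U]; field_simp
  have e3 : ((Real.sin (acot u) : ℂ) * (u - I) * ww γ s b).im
      = Real.sin (acot u) * (u * (ww γ s b).im - (ww γ s b).re) := by
    simp only [Complex.mul_im, Complex.mul_re, Complex.ofReal_re, Complex.ofReal_im,
      Complex.sub_re, Complex.sub_im, Complex.I_re, Complex.I_im]
    ring
  rw [e3, hre]
  ring

lemma acot_anti {x y : ℝ} (hxy : x ≤ y) : acot y ≤ acot x := by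
  unfold acot
  have := Real.arctan_strictMono.monotone hxy
  linarith

/-- if all chords leaving at one angle arrive at an angle at least as large, they all arrive at the
same angle -/
theorem flux_le (h : StrictlyConvexCurve γ L) (u : ℝ) (hu : ∀ s, nu γ L s u ≤ u) (s : ℝ) :
    nu γ L s u = u := by
  have hα := acot_mem u
  have key : ∀ s, u ≤ U γ s (iv h (th γ s + 2 * acot u)) ∧
      (U γ s (iv h (th γ s + 2 * acot u)) = u → nu γ L s u = u) := by
    intro s
    obtain ⟨q1, q2⟩ := arc_le h hα (th γ s + acot u)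
    have e0 : th γ s + acot u - acot u = th γ s := by ring
    have e1 : th γ s + acot u + acot u = th γ s + 2 * acot u := by ring
    rw [e0, e1, iv_th h] at q1 q2
    set b := iv h (th γ s + 2 * acot u) with hb
    have h1 := th_tt h s u
    obtain ⟨h2, h3⟩ := tt_spec h s u
    have hbt : b ≤ tt γ L s u := by
      rw [← (th_strictMono h).le_iff_le, hb, th_iv, h1]
      linarith [acot_anti (hu s)]
    constructor
    · have := (U_strictAntiOn h s).antitoneOn ⟨q1, q2⟩ h2 hbt
      rwa [h3] at this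
    · intro he
      have h4 := tt_unique h ⟨q1, q2⟩ he
      rw [h4, hb, th_iv] at h1
      have h5 : acot (nu γ L s u) = acot u := by linarith
      have h6 := congrArg Real.cot h5
      rwa [cot_acot, cot_acot] at h6
  have hH : ∀ φ, HH h (acot u) φ ≤ 0 := by
    intro φ
    obtain ⟨s, hs⟩ := th_surj h (φ - acot u)
    have e : φ = th γ s + acot u := by linarith
    rw [e, HH_eq h]
    obtain ⟨q1, q2⟩ := arc_le h hα (th γ s + acot u)
    have e0 : th γ s + acot u - acot u = th γ s := by ring
    have e1 : th γ s + acot u + acot u = th γ s + 2 * acot u := by ring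
    rw [e0, e1, iv_th h] at q1 q2
    have hpos := im_pos h q1 q2
    apply mul_nonpos_of_nonneg_of_nonpos (mul_nonneg (sin_acot_pos u).le hpos.le)
    linarith [(key s).1]
  apply (key s).2
  have h0 := HH_zero_of_nonpos h hα hH (th γ s + acot u)
  rw [HH_eq h] at h0
  obtain ⟨q1, q2⟩ := arc_le h hα (th γ s + acot u)
  have e0 : th γ s + acot u - acot u = th γ s := by ring
  have e1 : th γ s + acot u + acot u = th γ s + 2 * acot u := by ring
  rw [e0, e1, iv_th h] at q1 q2
  have hpos := im_pos h q1 q2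
  have := (mul_eq_zero.mp h0).resolve_left (mul_pos (sin_acot_pos u) hpos).ne'
  linarith

theorem flux_ge (h : StrictlyConvexCurve γ L) (u : ℝ) (hu : ∀ s, u ≤ nu γ L s u) (s : ℝ) :
    nu γ L s u = u := by
  have hα := acot_mem u
  have key : ∀ s, U γ s (iv h (th γ s + 2 * acot u)) ≤ u ∧
      (U γ s (iv h (th γ s + 2 * acot u)) = u → nu γ L s u = u) := by
    intro s
    obtain ⟨q1, q2⟩ := arc_le h hα (th γ s + acot u)
    have e0 : th γ s + acot u - acot u = th γ s := by ring
    have e1 : th γ s + acot u + acot u = th γ s + 2 * acot u := by ring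
    rw [e0, e1, iv_th h] at q1 q2
    set b := iv h (th γ s + 2 * acot u) with hb
    have h1 := th_tt h s u
    obtain ⟨h2, h3⟩ := tt_spec h s u
    have hbt : tt γ L s u ≤ b := by
      rw [← (th_strictMono h).le_iff_le, hb, th_iv, h1]
      linarith [acot_anti (hu s)]
    constructor
    · have := (U_strictAntiOn h s).antitoneOn h2 ⟨q1, q2⟩ hbt
      rwa [h3] at this
    · intro he
      have h4 := tt_unique h ⟨q1, q2⟩ he
      rw [h4, hb, th_iv] at h1
      have h5 : acot (nu γ L s u) = acot u := by linarith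
      have h6 := congrArg Real.cot h5
      rwa [cot_acot, cot_acot] at h6
  have hH : ∀ φ, 0 ≤ HH h (acot u) φ := by
    intro φ
    obtain ⟨s, hs⟩ := th_surj h (φ - acot u)
    have e : φ = th γ s + acot u := by linarith
    rw [e, HH_eq h]
    obtain ⟨q1, q2⟩ := arc_le h hα (th γ s + acot u)
    have e0 : th γ s + acot u - acot u = th γ s := by ring
    have e1 : th γ s + acot u + acot u = th γ s + 2 * acot u := by ring
    rw [e0, e1, iv_th h] at q1 q2
    have hpos := im_pos h q1 q2
    apply mul_nonneg (mul_nonneg (sin_acot_pos u).le hpos.le)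
    linarith [(key s).1]
  apply (key s).2
  have h0 := HH_zero_of_nonneg h hα hH (th γ s + acot u)
  rw [HH_eq h] at h0
  obtain ⟨q1, q2⟩ := arc_le h hα (th γ s + acot u)
  have e0 : th γ s + acot u - acot u = th γ s := by ring
  have e1 : th γ s + acot u + acot u = th γ s + 2 * acot u := by ring
  rw [e0, e1, iv_th h] at q1 q2
  have hpos := im_pos h q1 q2
  have := (mul_eq_zero.mp h0).resolve_left (mul_pos (sin_acot_pos u) hpos).ne'
  linarith

end Pool.Agent.KS6_1.Oval
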