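import Mathlib
import Pool.Agent.KS6_1.Oval.Far

set_option autoImplicit false

/-! Climbing orbits, and the absence of rotational invariant curves. -/

namespace Pool.Agent.KS6_1.Oval

open Complex Set Filter Topology
open Pool.Agent.H738R2 Pool.Agent.H738R2.Cyl

variable {γ : ℝ → ℂ} {L : ℝ}

/-- the lift of the map `T` in the coordinates `(s, cot α)` -/
noncomputable def TL (γ : ℝ → ℂ) (L d : ℝ) (p : ℝ × ℝ) : ℝ × ℝ :=
  (tt γ L p.1 p.2 + d * nu γ L p.1 p.2, nu γ L p.1 p.2)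

lemma TL_continuous (h : StrictlyConvexCurve γ L) (d : ℝ) : Continuous (TL γ L d) :=
  ((tt_continuous h).add (continuous_const.mul (nu_continuous h))).prodMk (nu_continuous h)

/-- at the levels between `V` and `V + w` the billiard map raises `cot α` by `2 w` at one point of
the curve and lowers it by `2 w` at another one -/
def Good (γ : ℝ → ℂ) (L w V : ℝ) : Prop :=
  (∃ s, ∀ u ∈ Icc V (V + w), u + 2 * w ≤ nu γ L s u) ∧
    (∃ s, ∀ u ∈ Icc V (V + w), nu γ L s u ≤ u - 2 * w)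

/-- the path `f` winds once around the cylinder in a strip -/
def Winds (L w : ℝ) (f : ℝ → ℝ × ℝ) (a b V : ℝ) : Prop :=
  L ≤ |(f a).1 - (f b).1| ∧ ∀ x ∈ uIcc a b, (f x).2 ∈ Icc V (V + w)

lemma winds_step (h : StrictlyConvexCurve γ L) {d w V V' : ℝ} (hw : 0 < w) (hd : 3 * L ≤ d * w)
    (hg : Good γ L w V) (hVV : |V' - V| ≤ w) (f : ℝ → ℝ × ℝ) (hf : Continuous f) (a b : ℝ)
    (hW : Winds L w f a b V) :
    ∃ a' ∈ uIcc a b, ∃ b' ∈ uIcc a b, Winds L w (TL γ L d ∘ f) a' b' V' := by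
  have hL := h.length_pos
  obtain ⟨hV1, hV2⟩ := abs_le.mp hVV
  obtain ⟨h1, h2⟩ := hW
  have hg1 : Continuous (fun x => (f x).1) := by fun_prop
  obtain ⟨a₁, ha₁, b₁, hb₁, A, hA, hB, hAB⟩ : ∃ a₁ ∈ uIcc a b, ∃ b₁ ∈ uIcc a b, ∃ A,
      (f a₁).1 = A ∧ (f b₁).1 = A + L ∧ ∀ x ∈ uIcc a₁ b₁, (f x).1 ∈ Icc A (A + L) := by
    rcases le_total (f a).1 (f b).1 with hle | hle
    · rw [abs_sub_comm, abs_of_nonneg (by linarith)] at h1
      obtain ⟨x', hx', y', hy', e1, e2, e3⟩ := exists_subinterval (fun x => (f x).1) hg1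
        (x := a) (y := b) (A := (f a).1) (B := (f a).1 + L) le_rfl (by linarith) (by linarith)
      exact ⟨x', hx', y', hy', _, e1, e2, e3⟩
    · rw [abs_of_nonneg (by linarith)] at h1
      obtain ⟨x', hx', y', hy', e1, e2, e3⟩ := exists_subinterval (fun x => (f x).1) hg1
        (x := b) (y := a) (A := (f b).1) (B := (f b).1 + L) le_rfl (by linarith) (by linarith)
      rw [uIcc_comm] at hx' hy'
      exact ⟨x', hx', y', hy', _, e1, e2, e3⟩
  have hsub : uIcc a₁ b₁ ⊆ uIcc a b := uIcc_subset_uIcc ha₁ hb₁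
  -- every point of the curve is passed
  have hpass : ∀ s : ℝ, ∃ x ∈ uIcc a₁ b₁, ∃ n : ℤ, (f x).1 = s + n * L := by
    intro s
    obtain ⟨n, hn, -⟩ := existsUnique_add_zsmul_mem_Ico hL s A
    rw [zsmul_eq_mul] at hn
    have hmem : s + n * L ∈ uIcc (f a₁).1 (f b₁).1 := by
      rw [hA, hB, mem_uIcc]; left; exact ⟨hn.1, hn.2.le⟩
    obtain ⟨x, hx, hxe⟩ := intermediate_value_uIcc hg1.continuousOn hmem
    exact ⟨x, hx, n, hxe⟩
  obtain ⟨⟨sp, hsp⟩, ⟨sm, hsm⟩⟩ := hg
  obtain ⟨xp, hxp, np, hnp⟩ := hpass sp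
  obtain ⟨xm, hxm, nm, hnm⟩ := hpass sm
  set k : ℝ → ℝ := fun x => nu γ L (f x).1 (f x).2 with hk
  have hkc : Continuous k := (nu_continuous h).comp hf
  have hkp : V' + w ≤ k xp := by
    simp only [hk]
    rw [hnp, nu_add_zsmul h]
    have h3 := h2 xp (hsub hxp)
    have h4 := hsp _ h3
    linarith [h3.1]
  have hkm : k xm ≤ V' := by
    simp only [hk]
    rw [hnm, nu_add_zsmul h]
    have h3 := h2 xm (hsub hxm)
    have h4 := hsm _ h3
    linarith [h3.2]
  obtain ⟨a₂, ha₂, b₂, hb₂, e1, e2, e3⟩ := exists_subinterval k hkc hkm (by linarith) hkp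
  have hsub2 : uIcc xm xp ⊆ uIcc a₁ b₁ := uIcc_subset_uIcc hxm hxp
  refine ⟨a₂, hsub (hsub2 ha₂), b₂, hsub (hsub2 hb₂), ?_, ?_⟩
  · have hS : ∀ x ∈ uIcc a₁ b₁, tt γ L (f x).1 (f x).2 ∈ Ioo A (A + 2 * L) := by
      intro x hx
      have h3 := hAB x hx
      have h4 := (tt_spec h (f x).1 (f x).2).1
      constructor <;> linarith [h3.1, h3.2, h4.1, h4.2]
    have ha := hS a₂ (hsub2 ha₂)
    have hb := hS b₂ (hsub2 hb₂)
    have e1' : nu γ L (f a₂).1 (f a₂).2 = V' := e1
    have e2' : nu γ L (f b₂).1 (f b₂).2 = V' + w := e2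
    simp only [Function.comp_apply, TL]
    rw [e1', e2', abs_sub_comm]
    refine le_trans ?_ (le_abs_self _)
    nlinarith [ha.1, ha.2, hb.1, hb.2]
  · intro x hx
    exact e3 x hx

/-- every sequence of levels with small steps is followed by an orbit -/
lemma follow (h : StrictlyConvexCurve γ L) {d w : ℝ} (hw : 0 < w) (hd : 3 * L ≤ d * w)
    (V : ℕ → ℝ) (hV : ∀ n, |V (n + 1) - V n| ≤ w) (hg : ∀ n, Good γ L w (V n)) :
    ∃ s : ℝ, ∀ n, ((TL γ L d)^[n] (s, V 0)).2 ∈ Icc (V n) (V n + w) := by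
  set f : ℝ → ℝ × ℝ := fun x => (x, V 0) with hf
  have hfc : Continuous f := by fun_prop
  have hit : ∀ n, Continuous ((TL γ L d)^[n] ∘ f) := fun n =>
    ((TL_continuous h d).iterate n).comp hfc
  have step : ∀ (n : ℕ) (p : ℝ × ℝ), Winds L w ((TL γ L d)^[n] ∘ f) p.1 p.2 (V n) →
      ∃ q : ℝ × ℝ, Winds L w ((TL γ L d)^[n + 1] ∘ f) q.1 q.2 (V (n + 1)) ∧
        uIcc q.1 q.2 ⊆ uIcc p.1 p.2 := by
    intro n p hp
    obtain ⟨a', ha', b', hb', hW⟩ := winds_step h hw hd (hg n) (hV n) _ (hit n) p.1 p.2 hp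
    refine ⟨(a', b'), ?_, uIcc_subset_uIcc ha' hb'⟩
    rw [Function.iterate_succ']
    exact hW
  choose! F hF using step
  let q : ℕ → ℝ × ℝ := fun n => Nat.rec ((0, L) : ℝ × ℝ) (fun n p => F n p) n
  have hq0 : q 0 = (0, L) := rfl
  have hqs : ∀ n, q (n + 1) = F n (q n) := fun n => rfl
  have hq : ∀ n, Winds L w ((TL γ L d)^[n] ∘ f) (q n).1 (q n).2 (V n) := by
    intro n
    induction n with
    | zero =>
      rw [hq0]
      constructor
      · simp only [hf, Function.iterate_zero, Function.id_comp, zero_sub, abs_neg]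
        exact le_abs_self _
      · intro x _
        exact ⟨le_rfl, by simp only [hf, Function.iterate_zero, Function.id_comp]; linarith⟩
    | succ n ih =>
      rw [hqs]
      exact (hF n (q n) ih).1
  have hnest : ∀ n, uIcc (q (n + 1)).1 (q (n + 1)).2 ⊆ uIcc (q n).1 (q n).2 := by
    intro n
    rw [hqs]
    exact (hF n (q n) (hq n)).2
  obtain ⟨x, hx⟩ := IsCompact.nonempty_iInter_of_sequence_nonempty_isCompact_isClosed
    (fun n => uIcc (q n).1 (q n).2) hnest (fun n => nonempty_uIcc) isCompact_uIcc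
    (fun n => isClosed_Icc)
  refine ⟨x, fun n => ?_⟩
  exact (hq n).2 x (mem_iInter.mp hx n)

/-- climbing orbits -/
lemma climb (h : StrictlyConvexCurve γ L) {d w : ℝ} (hw : 0 < w) (hd : 3 * L ≤ d * w)
    {V V' : ℝ} (hVV : V ≤ V') (hg : ∀ W ∈ Icc V V', Good γ L w W) :
    ∃ (s : ℝ) (n : ℕ), V' ≤ ((TL γ L d)^[n] (s, V)).2 := by
  obtain ⟨n, hn⟩ := exists_nat_gt ((V' - V) / w)
  rw [div_lt_iff₀ hw] at hn
  obtain ⟨s, hs⟩ := follow h hw hd (fun n => min (V + n * w) V') (by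
      intro n
      refine (abs_min_sub_min_le_max _ _ _ _).trans (max_le ?_ ?_)
      · have : V + ((n + 1 : ℕ) : ℝ) * w - (V + n * w) = w := by push_cast; ring
        rw [this, abs_of_pos hw]
      · rw [sub_self, abs_zero]; exact hw.le) (by
      intro n
      apply hg
      have : 0 ≤ (n : ℝ) * w := by positivity
      exact ⟨le_min (by linarith) hVV, min_le_right _ _⟩)
  refine ⟨s, n, ?_⟩
  have h1 := (hs n).1
  have e0 : min (V + ((0:ℕ) : ℝ) * w) V' = V := by simp [hVV]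
  simp only [e0] at h1
  rw [min_eq_right (by linarith)] at h1
  exact h1

/-! ### the phase cylinder -/

/-- projection from the universal cover (coordinates `(s, cot α)`) to the phase cylinder -/
noncomputable def pj (L : ℝ) (p : ℝ × ℝ) : PhaseCylinder L :=
  ((p.1 : AddCircle L), ⟨acot p.2, acot_mem p.2⟩)

lemma pj_surjective (L : ℝ) : Function.Surjective (pj L) := by
  rintro ⟨z1, z2⟩
  obtain ⟨s, rfl⟩ := QuotientAddGroup.mk_surjective z1
  refine ⟨(s, Real.cot z2), ?_⟩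
  refine Prod.ext rfl (Subtype.ext ?_)
  exact acot_cot z2.2

variable {T₁ : PhaseCylinder L → PhaseCylinder L}

lemma T_pj (h : StrictlyConvexCurve γ L) (hT : IsBilliardMap γ L T₁) (d : ℝ) (p : ℝ × ℝ) :
    (cylinderMap L d ∘ T₁) (pj L p) = pj L (TL γ L d p) := by
  have h1 := hT.eq_of_chord (α := ⟨acot p.2, acot_mem p.2⟩)
    (α₁ := ⟨acot (nu γ L p.1 p.2), acot_mem _⟩) h (chord h p.1 p.2)
  simp only [Function.comp_apply]
  rw [pj, h1, cylinderMap, pj, TL]
  refine Prod.ext ?_ rfl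
  simp only [cot_acot]
  rw [AddCircle.coe_add]

/-- the billiard map exists -/
lemma exists_billiardMap (h : StrictlyConvexCurve γ L) :
    ∃ T₁ : PhaseCylinder L → PhaseCylinder L, IsBilliardMap γ L T₁ := by
  have : ∀ z : PhaseCylinder L, ∃ w : PhaseCylinder L, ∃ s s₁ : ℝ,
      (s : AddCircle L) = z.1 ∧ (s₁ : AddCircle L) = w.1 ∧ Chord γ s z.2 s₁ w.2 := by
    intro z
    obtain ⟨p, rfl⟩ := pj_surjective L z
    exact ⟨((tt γ L p.1 p.2 : ℝ), ⟨acot (nu γ L p.1 p.2), acot_mem _⟩), p.1, _, rfl, rfl,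
      chord h p.1 p.2⟩
  choose T hT using this
  exact ⟨T, hT⟩

/-- far down, the image is far down -/
lemma nu_low (h : StrictlyConvexCurve γ L) (s m y₀ : ℝ) : ∃ y ≤ y₀, nu γ L s y < m := by
  obtain ⟨K, hK1, hK2⟩ := exists_bound h
  have hK : Bd γ K := ⟨hK1, hK2⟩
  have hL := h.length_pos
  obtain ⟨h1, h2, h3, h4⟩ := x0_spec hK1 hL m
  set x := x0 K L m with hx
  refine ⟨min y₀ (U γ s (s + L - x)), min_le_left _ _, ?_⟩
  obtain ⟨k1, k2⟩ := tt_spec h s (min y₀ (U γ s (s + L - x)))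
  set t := tt γ L s (min y₀ (U γ s (s + L - x))) with ht
  have ht2 : s + L - x ≤ t := by
    by_contra hcon
    push Not at hcon
    have := U_strictAntiOn h s k1 (show s + L - x ∈ Ioo s (s + L) from
      ⟨by linarith, by linarith⟩) hcon
    simp only at this
    rw [k2] at this
    linarith [min_le_right y₀ (U γ s (s + L - x))]
  set x' := s + L - t with hx'
  have hx'0 : 0 < x' := by linarith [k1.2]
  have hx'x : x' ≤ x := by linarith
  have hKx : K * x' ≤ K * x := mul_le_mul_of_nonneg_left hx'x hK1.le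
  have h5 := U_ge h hK (s := t) hx'0 (hKx.trans h2) (by linarith)
  have e : t + x' = s + L := by rw [hx']; ring
  rw [e, U_add_right h] at h5
  have h6 : 1 / (K * x) ≤ 1 / (K * x') :=
    one_div_le_one_div_of_le (mul_pos hK1 hx'0) hKx
  rw [nu, ← ht]
  linarith [neg_abs_le m]

/-- no rotational invariant curve between two levels -/
theorem no_curve_between (h : StrictlyConvexCurve γ L) (hT : IsBilliardMap γ L T₁) {d w m M : ℝ}
    (hw : 0 < w) (hd : 3 * L ≤ d * w) (hgood : ∀ W ∈ Icc m M, Good γ L w W)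
    {Γ : Set (PhaseCylinder L)} (hΓ : IsRotationalInvariantCurve (cylinderMap L d ∘ T₁) Γ) :
    ¬ ∀ z ∈ Γ, m < Real.cot (z.2 : ℝ) ∧ Real.cot (z.2 : ℝ) < M := by
  intro hbd
  obtain ⟨c, -, hnull, hrange, hinv⟩ := hΓ
  have hTinj : Function.Injective (cylinderMap L d ∘ T₁) :=
    (cylinderMap_injective L d).comp (hT.injective h)
  have : ContractibleSpace (Ioo (0:ℝ) Real.pi) :=
    (convex_Ioo (0:ℝ) Real.pi).contractibleSpace ⟨Real.pi / 2, by
      constructor <;> linarith [Real.pi_pos]⟩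
  obtain ⟨σ, κ, hσc, hκ, hσper, hσ⟩ := lift_closed_curve c hnull
  have hcotc : Continuous (fun z : AddCircle (1:ℝ) => Real.cot ((c z).2 : ℝ)) := by
    simp only [Real.cot_eq_cos_div_sin]
    apply Continuous.div
    · fun_prop
    · fun_prop
    · intro z
      exact (Real.sin_pos_of_mem_Ioo (c z).2.2).ne'
  have hM : ∀ z : AddCircle (1:ℝ), m < Real.cot ((c z).2 : ℝ) ∧ Real.cot ((c z).2 : ℝ) < M := by
    intro z
    apply hbd
    rw [← hrange]
    exact mem_range_self z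
  have hmM : m ≤ M := ((hM 0).1.trans (hM 0).2).le
  have hcc : ∀ x : ℝ, pj L (σ x, Real.cot ((c (x : AddCircle (1:ℝ))).2 : ℝ)) = c x := by
    intro x
    refine Prod.ext ?_ (Subtype.ext ?_)
    · exact hσ x
    · exact acot_cot (c x).2.2
  set pre : Set (ℝ × ℝ) := {p | pj L p ∉ Γ} with hpre
  have hlow : ∀ p : ℝ × ℝ, p.2 ≤ m → p ∈ pre := by
    intro p hp hmem
    rw [← hrange] at hmem
    obtain ⟨z, hz⟩ := hmem
    have h1 : ((c z).2 : ℝ) = acot p.2 := by rw [hz]; rfl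
    have h2 := hM z
    rw [h1, cot_acot] at h2
    linarith [h2.1]
  have hTpre : ∀ p ∈ pre, TL γ L d p ∈ pre := by
    intro p hp hmem
    rw [← T_pj h hT d p, ← hinv] at hmem
    obtain ⟨z, hz, hzz⟩ := hmem
    have := hTinj hzz
    rw [this] at hz
    exact hp hz
  set D : Set (ℝ × ℝ) := {p | ∃ w : ℝ × ℝ, w.2 ≤ m ∧ JoinedIn pre w p} with hD
  have hTD : ∀ p ∈ D, TL γ L d p ∈ D := by
    rintro p ⟨w, hw, hj⟩
    obtain ⟨y, hy, hyl⟩ := nu_low h w.1 m w.2
    set w' : ℝ × ℝ := (w.1, y) with hw'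
    have hconv : Convex ℝ {p : ℝ × ℝ | p.2 ≤ m} :=
      convex_halfSpace_le (LinearMap.snd ℝ ℝ ℝ).isLinear m
    have hseg : JoinedIn pre w' w := by
      apply JoinedIn.of_segment_subset
      intro y' hy'
      apply hlow
      have hm1 : w' ∈ {p : ℝ × ℝ | p.2 ≤ m} := by
        change y ≤ m; linarith
      exact hconv.segment_subset hm1 hw hy'
    have hj' := (hseg.trans hj).map (TL_continuous h d)
    refine ⟨TL γ L d w', ?_, hj'.mono ?_⟩
    · simp only [TL, hw']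
      exact hyl.le
    · rintro _ ⟨y, hy, rfl⟩
      exact hTpre y hy
  obtain ⟨s, n, hn⟩ := climb h hw hd hmM hgood
  have h0 : ((s, m) : ℝ × ℝ) ∈ D :=
    ⟨(s, m), le_rfl, JoinedIn.refl (hlow _ le_rfl)⟩
  have hiter : ∀ k : ℕ, (TL γ L d)^[k] (s, m) ∈ D := by
    intro k
    induction k with
    | zero => exact h0
    | succ k ih =>
      rw [Function.iterate_succ_apply']
      exact hTD _ ih
  obtain ⟨w, hw, ⟨β, hβ⟩⟩ := hiter n
  have hb : Continuous (fun y : ℝ => (⟨(β.extend y).1, (β.extend y).2⟩ : ℂ)) := by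
    have h1 : Continuous (fun y : ℝ => ((β.extend y).1 : ℂ) + ((β.extend y).2 : ℂ) * Complex.I) := by
      have := β.continuous_extend
      fun_prop
    convert h1 using 2 with y
    exact Complex.mk_eq_add_mul_I _ _
  have hcurve : Continuous (fun x : ℝ =>
      (⟨σ x, Real.cot ((c (x : AddCircle (1:ℝ))).2 : ℝ)⟩ : ℂ)) := by
    have h2 : Continuous (fun x : ℝ => Real.cot ((c (x : AddCircle (1:ℝ))).2 : ℝ)) :=
      hcotc.comp (AddCircle.continuous_mk' 1)
    have h1 : Continuous (fun x : ℝ => ((σ x : ℝ) : ℂ)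
        + ((Real.cot ((c (x : AddCircle (1:ℝ))).2 : ℝ) : ℝ) : ℂ) * Complex.I) := by
      fun_prop
    convert h1 using 2 with y
    exact Complex.mk_eq_add_mul_I _ _
  obtain ⟨x, y, hy, hxy⟩ := crossing _ _ hcurve hb κ hκ (by
      intro x
      apply Complex.ext
      · simp [hσper]
      · simp) (by
      intro x
      simp only [Path.extend_zero]
      have := (hM (x : AddCircle (1:ℝ))).1
      linarith) (by
      intro x
      simp only [Path.extend_one]
      have := (hM (x : AddCircle (1:ℝ))).2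
      exact lt_of_lt_of_le this hn)
  have e1 : σ x = (β.extend y).1 := congrArg Complex.re hxy
  have e2 : Real.cot ((c (x : AddCircle (1:ℝ))).2 : ℝ) = (β.extend y).2 := congrArg Complex.im hxy
  have e3 : pj L (β.extend y) = c x := by
    rw [← hcc x, e1, e2]
  have e4 : β.extend y ∈ pre := by
    have : β.extend y = β ⟨y, hy⟩ := Path.extend_apply β hy
    rw [this]
    exact hβ _
  apply e4
  rw [e3, ← hrange]
  exact mem_range_self _

end Pool.Agent.KS6_1.Oval
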