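import Mathlib
import Pool.Agent.KS6_1.Oval.Wind

set_option autoImplicit false

/-! For a curve which is not a circle there are no rotational invariant curves near the boundary. -/

namespace Pool.Agent.KS6_1.Oval

open Complex Set Filter Topology
open Pool.Agent.H738R2 Pool.Agent.H738R2.Cyl

variable {γ : ℝ → ℂ} {L : ℝ}

lemma Good.mono {w w' V : ℝ} (hg : Good γ L w V) (hw : w' ≤ w) : Good γ L w' V := by
  obtain ⟨⟨s, hs⟩, ⟨s', hs'⟩⟩ := hg
  refine ⟨⟨s, fun u hu => ?_⟩, ⟨s', fun u hu => ?_⟩⟩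
  · have := hs u ⟨hu.1, by linarith [hu.2]⟩
    linarith
  · have := hs' u ⟨hu.1, by linarith [hu.2]⟩
    linarith

lemma far_good (h : StrictlyConvexCurve γ L) (hnc : ¬ IsCircle γ) :
    ∃ w > 0, ∃ M > 0, (∀ V, M ≤ V → Good γ L w V) ∧ (∀ V, V ≤ -M → Good γ L w V) := by
  obtain ⟨⟨s₀, hs₀⟩, ⟨s₁, hs₁⟩⟩ := exists_signs h hnc
  obtain ⟨c, hc, M, hM⟩ := far h s₀ 1 (by linarith)
  obtain ⟨c', hc', M', hM'⟩ := far h s₁ (-1) (by linarith)
  have m1 : min c c' ≤ c := min_le_left _ _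
  have m2 : min c c' ≤ c' := min_le_right _ _
  have m3 : 0 < min c c' := lt_min hc hc'
  have a1 := le_abs_self M
  have a2 := le_abs_self M'
  have a3 := abs_nonneg M
  have a4 := abs_nonneg M'
  refine ⟨min c c' / 2, by positivity, |M| + |M'| + min c c' / 2 + 1, by positivity, ?_, ?_⟩
  · intro V hV
    refine ⟨⟨s₀, fun u hu => ?_⟩, ⟨s₁, fun u hu => ?_⟩⟩
    · have := hM u ((by linarith [hu.1] : M ≤ u).trans (le_abs_self u))
      linarith
    · have := hM' u ((by linarith [hu.1] : M' ≤ u).trans (le_abs_self u))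
      linarith
  · intro V hV
    refine ⟨⟨s₀, fun u hu => ?_⟩, ⟨s₁, fun u hu => ?_⟩⟩
    · have := hM u ((by linarith [hu.2] : M ≤ -u).trans (neg_le_abs u))
      linarith
    · have := hM' u ((by linarith [hu.2] : M' ≤ -u).trans (neg_le_abs u))
      linarith

lemma cot_bounds {Γ : Set (PhaseCylinder L)} {T : PhaseCylinder L → PhaseCylinder L}
    (hΓ : IsRotationalInvariantCurve T Γ) :
    ∃ M : ℝ, ∀ z ∈ Γ, |Real.cot (z.2 : ℝ)| < M := by
  obtain ⟨c, -, -, hrange, -⟩ := hΓ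
  have hcotc : Continuous (fun z : AddCircle (1:ℝ) => Real.cot ((c z).2 : ℝ)) := by
    simp only [Real.cot_eq_cos_div_sin]
    apply Continuous.div
    · fun_prop
    · fun_prop
    · intro z
      exact (Real.sin_pos_of_mem_Ioo (c z).2.2).ne'
  have : Fact ((0:ℝ) < 1) := ⟨one_pos⟩
  obtain ⟨M, hM⟩ := (isCompact_univ : IsCompact (univ : Set (AddCircle (1:ℝ)))
    ).exists_bound_of_continuousOn hcotc.continuousOn
  refine ⟨M + 1, ?_⟩
  rw [← hrange]
  rintro _ ⟨z, rfl⟩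
  exact lt_of_le_of_lt (hM z (mem_univ z)) (by linarith)

lemma cot_anti {α β : ℝ} (hα : α ∈ Ioo (0:ℝ) Real.pi) (hβ : β ∈ Ioo (0:ℝ) Real.pi)
    (hlt : α < β) : Real.cot β < Real.cot α := by
  by_contra hcon
  push Not at hcon
  have h1 : acot (Real.cot β) ≤ acot (Real.cot α) := by
    unfold acot
    have := Real.arctan_strictMono.monotone hcon
    linarith
  rw [acot_cot hα, acot_cot hβ] at h1
  linarith

/-- no rotational invariant curve near either boundary component -/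
theorem no_curve_near_boundary (h : StrictlyConvexCurve γ L) (hnc : ¬ IsCircle γ) :
    ∃ d₀ ε : ℝ, 0 < d₀ ∧ 0 < ε ∧ ∀ d, d₀ ≤ d → ∀ T₁, IsBilliardMap γ L T₁ →
      ∀ Γ, IsRotationalInvariantCurve (cylinderMap L d ∘ T₁) Γ →
        (∃ z ∈ Γ, ε ≤ (z.2 : ℝ)) ∧ (∃ z ∈ Γ, (z.2 : ℝ) ≤ Real.pi - ε) := by
  obtain ⟨w, hw, M, hM, hg1, hg2⟩ := far_good h hnc
  have hL := h.length_pos
  refine ⟨3 * L / w, acot M, by positivity, (acot_mem M).1, ?_⟩
  intro d hd T₁ hT Γ hΓ
  have hd' : 3 * L ≤ d * w := by rwa [div_le_iff₀ hw] at hd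
  obtain ⟨B, hB⟩ := cot_bounds hΓ
  constructor
  · by_contra hcon
    push Not at hcon
    apply no_curve_between h hT (m := M) (M := B) hw hd' (fun W hW => hg1 W hW.1) hΓ
    intro z hz
    refine ⟨?_, (abs_lt.mp (hB z hz)).2⟩
    have := cot_anti z.2.2 (acot_mem M) (hcon z hz)
    rwa [cot_acot] at this
  · by_contra hcon
    push Not at hcon
    apply no_curve_between h hT (m := -B) (M := -M) hw hd' (fun W hW => hg2 W hW.2) hΓ
    intro z hz
    refine ⟨(abs_lt.mp (hB z hz)).1, ?_⟩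
    have e : Real.pi - acot M = acot (-M) := by
      unfold acot; rw [Real.arctan_neg]; ring
    have h3 := hcon z hz
    rw [e] at h3
    have := cot_anti (acot_mem (-M)) z.2.2 h3
    rwa [cot_acot] at this

end Pool.Agent.KS6_1.Oval
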