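import Mathlib
import Pool.Agent.KS6_1.Oval.Flux
import Pool.Agent.KS6_1.Oval.MainB

set_option autoImplicit false

/-! Levels that are not preserved; preserved levels give rotational invariant curves. -/

namespace Pool.Agent.KS6_1.Oval

open Complex Set Filter Topology
open Pool.Agent.H738R2 Pool.Agent.H738R2.Cyl

variable {γ : ℝ → ℂ} {L : ℝ}

/-! ### a definite gain at all levels -/

lemma good_near (h : StrictlyConvexCurve γ L) {u : ℝ} (hu : ∃ s, nu γ L s u ≠ u) :
    ∃ w > 0, ∃ ε > 0, ∀ V, |V - u| < ε → Good γ L w V := by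
  have hp : ∃ s, u < nu γ L s u := by
    by_contra hcon
    push Not at hcon
    obtain ⟨s, hs⟩ := hu
    exact hs (flux_le h u hcon s)
  have hm : ∃ s, nu γ L s u < u := by
    by_contra hcon
    push Not at hcon
    obtain ⟨s, hs⟩ := hu
    exact hs (flux_ge h u hcon s)
  obtain ⟨s, hs⟩ := hp
  obtain ⟨s', hs'⟩ := hm
  have c1 : ∀ s, Continuous (fun v => nu γ L s v - v) := by
    intro s
    have : Continuous (fun v : ℝ => ((s, v) : ℝ × ℝ)) := by fun_prop
    exact ((nu_continuous h).comp this).sub continuous_id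
  set η := min ((nu γ L s u - u) / 2) ((u - nu γ L s' u) / 2) with hη
  have hη0 : 0 < η := lt_min (by linarith) (by linarith)
  have hη1 : η ≤ (nu γ L s u - u) / 2 := min_le_left _ _
  have hη2 : η ≤ (u - nu γ L s' u) / 2 := min_le_right _ _
  have e1 : ∀ᶠ v in 𝓝 u, η < nu γ L s v - v :=
    (c1 s).continuousAt.eventually (lt_mem_nhds (by linarith))
  have e2 : ∀ᶠ v in 𝓝 u, nu γ L s' v - v < -η :=
    (c1 s').continuousAt.eventually (gt_mem_nhds (by linarith))
  obtain ⟨δ, hδ, hball⟩ := Metric.eventually_nhds_iff.mp (e1.and e2)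
  refine ⟨min (η / 2) (δ / 2), lt_min (by positivity) (by positivity), δ / 2, by positivity, ?_⟩
  intro V hV
  have w1 : min (η / 2) (δ / 2) ≤ η / 2 := min_le_left _ _
  have w2 : min (η / 2) (δ / 2) ≤ δ / 2 := min_le_right _ _
  obtain ⟨v1, v2⟩ := abs_lt.mp hV
  have key : ∀ v ∈ Icc V (V + min (η / 2) (δ / 2)), dist v u < δ := by
    intro v hv
    rw [Real.dist_eq, abs_lt]
    constructor <;> linarith [hv.1, hv.2]
  refine ⟨⟨s, fun v hv => ?_⟩, ⟨s', fun v hv => ?_⟩⟩
  · have := (hball (key v hv)).1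
    linarith
  · have := (hball (key v hv)).2
    linarith

lemma good_all (h : StrictlyConvexCurve γ L) (hnc : ¬ IsCircle γ)
    (hu : ∀ u, ∃ s, nu γ L s u ≠ u) : ∃ w > 0, ∀ V, Good γ L w V := by
  obtain ⟨w, hw, M, hM, hg1, hg2⟩ := far_good h hnc
  have hK : IsCompact (Icc (-M) M) := isCompact_Icc
  have : ∃ w' > 0, ∀ V ∈ Icc (-M) M, Good γ L w' V := by
    refine hK.induction_on (p := fun S => ∃ w' > 0, ∀ V ∈ S, Good γ L w' V) ?_ ?_ ?_ ?_
    · exact ⟨1, one_pos, fun V hV => absurd hV (notMem_empty V)⟩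
    · rintro S T hST ⟨w', hw', hg⟩
      exact ⟨w', hw', fun V hV => hg V (hST hV)⟩
    · rintro S T ⟨w₁, hw₁, hgS⟩ ⟨w₂, hw₂, hgT⟩
      refine ⟨min w₁ w₂, lt_min hw₁ hw₂, ?_⟩
      rintro V (hV | hV)
      · exact (hgS V hV).mono (min_le_left _ _)
      · exact (hgT V hV).mono (min_le_right _ _)
    · intro x _
      obtain ⟨w', hw', ε, hε, hg⟩ := good_near h (hu x)
      refine ⟨Metric.ball x ε, mem_nhdsWithin_of_mem_nhds (Metric.ball_mem_nhds x hε), w', hw', ?_⟩
      intro V hV
      exact hg V (by rwa [Metric.mem_ball, Real.dist_eq] at hV)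
  obtain ⟨w', hw', hg⟩ := this
  refine ⟨min w w', lt_min hw hw', ?_⟩
  intro V
  rcases le_or_gt M V with h1 | h1
  · exact (hg1 V h1).mono (min_le_left _ _)
  · rcases le_or_gt V (-M) with h2 | h2
    · exact (hg2 V h2).mono (min_le_left _ _)
    · exact (hg V ⟨h2.le, h1.le⟩).mono (min_le_right _ _)

/-! ### circles -/

lemma nu_circle (h : StrictlyConvexCurve γ L) (hc : IsCircle γ) (s u : ℝ) : nu γ L s u = u := by
  obtain ⟨c, r, hr⟩ := hc
  have c1 := smooth1 h
  have d1 : ∀ t, HasDerivAt (deriv γ) (deriv (deriv γ) t) t :=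
    fun t => (c1.differentiable (by simp) t).hasDerivAt
  have d0 : ∀ t, HasDerivAt (fun t => (starRingEnd ℂ) (γ t - c)) ((starRingEnd ℂ) (deriv γ t)) t :=
    fun t => Complex.conjCLE.toContinuousLinearMap.hasFDerivAt.comp_hasDerivAt t
      ((hasDeriv0 h t).sub_const c)
  have hre : ∀ t, ((starRingEnd ℂ) (γ t - c) * deriv γ t).re = 0 := by
    intro t
    have h1 := (d0 t).fun_mul ((hasDeriv0 h t).sub_const c)
    have h2 : HasDerivAt (fun t => (starRingEnd ℂ) (γ t - c) * (γ t - c)) 0 t := by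
      have : (fun t => (starRingEnd ℂ) (γ t - c) * (γ t - c)) = fun _ => ((r ^ 2 : ℝ) : ℂ) := by
        funext t
        rw [mul_comm, Complex.mul_conj, Complex.normSq_eq_norm_sq, hr t]
      rw [this]; exact hasDerivAt_const _ _
    have h4 := congrArg Complex.re (h1.unique h2)
    simp only [Complex.add_re, Complex.mul_re, Complex.conj_re, Complex.conj_im,
      Complex.zero_re] at h4 ⊢
    linarith
  -- the radius, with sign
  have hm : ∀ t, HasDerivAt (fun t => ((starRingEnd ℂ) (γ t - c) * deriv γ t).im) 0 t := by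
    intro t
    have h1 := Complex.imCLM.hasFDerivAt.comp_hasDerivAt t ((d0 t).fun_mul (d1 t))
    refine HasDerivAt.congr_deriv (f' := _) h1 ?_
    rw [Complex.imCLM_apply, Complex.add_im, conj_mul_self h t, Complex.one_im, zero_add,
      deriv2_eq h t]
    have e : (starRingEnd ℂ) (γ t - c) * (↑(kk γ t) * I * deriv γ t)
        = (kk γ t : ℂ) * (I * ((starRingEnd ℂ) (γ t - c) * deriv γ t)) := by ring
    rw [e, Complex.im_ofReal_mul, Complex.I_mul_im, hre t, mul_zero]
  set m := ((starRingEnd ℂ) (γ 0 - c) * deriv γ 0).im with hmdef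
  have hmc : ∀ t, ((starRingEnd ℂ) (γ t - c) * deriv γ t).im = m := fun t =>
    is_const_of_deriv_eq_zero (f := fun t => ((starRingEnd ℂ) (γ t - c) * deriv γ t).im)
      (fun t => (hm t).differentiableAt) (fun t => (hm t).deriv) t 0
  have hγ : ∀ t, γ t = c - (m * I) * deriv γ t := by
    intro t
    have h1 : (starRingEnd ℂ) (γ t - c) * deriv γ t = m * I := by
      apply Complex.ext
      · rw [hre t]; simp
      · rw [hmc t]; simp
    have h2 := congrArg (starRingEnd ℂ) h1
    simp only [map_mul, Complex.conj_conj, Complex.conj_I, Complex.conj_ofReal] at h2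
    linear_combination (deriv γ t) * h2 - (γ t - c) * conj_mul_self h t
  obtain ⟨⟨h1, h2⟩, h3⟩ := tt_spec h s u
  set t := tt γ L s u with ht
  have hne := gamma_ne h h1 h2
  have hdiff := diff_eq h hne
  have hN : NN γ s t = 0 := by
    rw [NN, hγ t, hγ s]
    have us := conj_mul_self h s
    have ut := conj_mul_self h t
    have e : (starRingEnd ℂ) (deriv γ s) * ((starRingEnd ℂ) (deriv γ t) *
        (c - (m * I) * deriv γ t - (c - (m * I) * deriv γ s)) ^ 2)
        = ((-(m ^ 2) : ℝ) : ℂ) * (((starRingEnd ℂ) (deriv γ s) * deriv γ t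
          + (starRingEnd ℂ) ((starRingEnd ℂ) (deriv γ s) * deriv γ t)) - 2) := by
      simp only [map_mul, Complex.conj_conj]
      have hI := Complex.I_sq
      push_cast
      linear_combination ((m:ℂ) ^ 2 * (deriv γ t - deriv γ s) ^ 2 * (starRingEnd ℂ) (deriv γ s)
          * (starRingEnd ℂ) (deriv γ t)) * hI
        - (m:ℂ) ^ 2 * ((starRingEnd ℂ) (deriv γ s) * deriv γ t) * ut
        - (m:ℂ) ^ 2 * ((starRingEnd ℂ) (deriv γ t) * deriv γ s) * us
        + 2 * (m:ℂ) ^ 2 * ((starRingEnd ℂ) (deriv γ s) * deriv γ s) * ut + 2 * (m:ℂ) ^ 2 * us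
    rw [e, Complex.im_ofReal_mul, Complex.sub_im, Complex.add_conj]
    simp
  rw [hN, zero_div] at hdiff
  rw [nu, ← ht]
  rw [h3] at hdiff
  linarith

/-! ### preserved levels -/

/-- the circle `α = α₀` as a closed curve -/
noncomputable def levelCurve (L : ℝ) (hL : L ≠ 0) (α₀ : Ioo (0:ℝ) Real.pi) :
    C(AddCircle (1:ℝ), PhaseCylinder L) :=
  ⟨fun z => (AddCircle.homeomorphAddCircle 1 L one_ne_zero hL z, α₀), by
    have := (AddCircle.homeomorphAddCircle (1:ℝ) L one_ne_zero hL).continuous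
    fun_prop⟩

lemma levelCurve_not_null (L : ℝ) (hL : L ≠ 0) (α₀ : Ioo (0:ℝ) Real.pi) :
    ¬ (levelCurve L hL α₀).Nullhomotopic := by
  rintro ⟨y, ⟨F⟩⟩
  have cov : IsCoveringMap ((↑) : ℝ → AddCircle L) := AddCircle.isCoveringMap_coe L
  set G := F.symm with hG
  let H : C(unitInterval × AddCircle (1:ℝ), AddCircle L) :=
    ⟨fun p => (G p).1, by have := G.continuous; fun_prop⟩
  obtain ⟨e, he⟩ : ∃ e : ℝ, ((e : ℝ) : AddCircle L) = y.1 := QuotientAddGroup.mk_surjective y.1
  have H0 : ∀ a, H (0, a) = (((ContinuousMap.const (AddCircle (1:ℝ)) e) a : ℝ) : AddCircle L) := by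
    intro a
    change (G (0, a)).1 = _
    rw [G.apply_zero]
    simp [he]
  let K := cov.liftHomotopy H (ContinuousMap.const (AddCircle (1:ℝ)) e) H0
  have hK := cov.liftHomotopy_lifts H (ContinuousMap.const (AddCircle (1:ℝ)) e) H0
  let g : ℝ → ℝ := fun x => K (1, (x : AddCircle (1:ℝ)))
  have hg : Continuous g := by
    have : Continuous ((↑) : ℝ → AddCircle (1:ℝ)) := AddCircle.continuous_mk' 1
    have := K.continuous
    fun_prop
  have hg1 : ∀ x : ℝ, ((g x : ℝ) : AddCircle L) = ((x * L : ℝ) : AddCircle L) := by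
    intro x
    have h1 := congrFun hK (1, (x : AddCircle (1:ℝ)))
    change ((g x : ℝ) : AddCircle L) = (G (1, (x : AddCircle (1:ℝ)))).1 at h1
    rw [h1, G.apply_one]
    change AddCircle.homeomorphAddCircle 1 L one_ne_zero hL (x : AddCircle (1:ℝ)) = _
    rw [AddCircle.homeomorphAddCircle_apply_mk]
    simp
  have h2 : ∀ x, (((fun x => g x - x * L) x : ℝ) : AddCircle L) = ((0:ℝ) : AddCircle L) := by
    intro x
    simp only
    rw [AddCircle.coe_sub, hg1 x, sub_self, AddCircle.coe_zero]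
  have h3 : Continuous (fun x => g x - x * L) := by fun_prop
  have h4 := cov.const_of_comp h3 (fun a b => by rw [h2 a, h2 b]) 1 0
  have h5 : g 1 = g 0 := by
    change K (1, ((1:ℝ) : AddCircle (1:ℝ))) = K (1, ((0:ℝ) : AddCircle (1:ℝ)))
    rw [AddCircle.coe_period, AddCircle.coe_zero]
  simp only [h5, one_mul, zero_mul, sub_zero] at h4
  apply hL
  linarith

variable {T₁ : PhaseCylinder L → PhaseCylinder L}

theorem level_invariant (h : StrictlyConvexCurve γ L) (hT : IsBilliardMap γ L T₁) (d u : ℝ)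
    (hu : ∀ s, nu γ L s u = u) :
    IsRotationalInvariantCurve (cylinderMap L d ∘ T₁) {z | (z.2 : ℝ) = acot u} := by
  have hL := h.length_pos
  have hset : ∀ z : PhaseCylinder L, (z.2 : ℝ) = acot u ↔ ∃ s : ℝ, z = pj L (s, u) := by
    intro z
    constructor
    · intro hz
      obtain ⟨s, hs⟩ := QuotientAddGroup.mk_surjective z.1
      exact ⟨s, Prod.ext hs.symm (Subtype.ext hz)⟩
    · rintro ⟨s, rfl⟩; rfl
  refine ⟨levelCurve L hL.ne' ⟨acot u, acot_mem u⟩, ?_, levelCurve_not_null _ _ _, ?_, ?_⟩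
  · intro a b hab
    have := congrArg Prod.fst hab
    exact (AddCircle.homeomorphAddCircle (1:ℝ) L one_ne_zero hL.ne').injective this
  · ext z
    constructor
    · rintro ⟨a, rfl⟩; rfl
    · intro hz
      obtain ⟨a, ha⟩ := (AddCircle.homeomorphAddCircle (1:ℝ) L one_ne_zero hL.ne').surjective z.1
      exact ⟨a, Prod.ext ha (Subtype.ext (Eq.symm hz))⟩
  · ext z
    constructor
    · rintro ⟨y, hy, rfl⟩
      obtain ⟨s, rfl⟩ := (hset y).mp hy
      rw [T_pj h hT]
      change acot (nu γ L s u) = acot u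
      rw [hu s]
    · intro hz
      obtain ⟨x, rfl⟩ := (hset z).mp hz
      -- find `s` with `tt s u + d u = x`
      have hc : Continuous (fun s => tt γ L s u) := by
        have : Continuous (fun s : ℝ => ((s, u) : ℝ × ℝ)) := by fun_prop
        exact (tt_continuous h).comp this
      have hmem : x - d * u ∈ Icc (tt γ L (x - d * u - L) u) (tt γ L (x - d * u) u) := by
        have h1 := (tt_spec h (x - d * u - L) u).1
        have h2 := (tt_spec h (x - d * u) u).1
        constructor
        · linarith [h1.2]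
        · linarith [h2.1]
      obtain ⟨s, -, hs⟩ := intermediate_value_Icc (by linarith) hc.continuousOn hmem
      refine ⟨pj L (s, u), rfl, ?_⟩
      rw [T_pj h hT]
      change pj L (tt γ L s u + d * nu γ L s u, nu γ L s u) = _
      have hs' : tt γ L s u = x - d * u := hs
      rw [hu s, hs', sub_add_cancel]

/-! ### constant angles in terms of chords -/

/-- `α` is a constant angle of `γ`: all chords leaving the curve at the angle `α` arrive at the
angle `α` -/
def ConstantAngle (γ : ℝ → ℂ) (α : ℝ) : Prop :=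
  ∀ s s₁ α₁ : ℝ, α₁ ∈ Ioo (0:ℝ) Real.pi → Chord γ s α s₁ α₁ → α₁ = α

lemma constantAngle_iff (h : StrictlyConvexCurve γ L) (u : ℝ) :
    ConstantAngle γ (acot u) ↔ ∀ s, nu γ L s u = u := by
  constructor
  · intro hc s
    have := hc s _ _ (acot_mem _) (chord h s u)
    have h2 := congrArg Real.cot this
    rwa [cot_acot, cot_acot] at h2
  · intro hn s s₁ α₁ hα₁ hch
    have := Chord.unique h rfl hα₁ (acot_mem _) hch (chord h s u)
    rw [this.2, hn s]

end Pool.Agent.KS6_1.Oval
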